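import Pool.Agent.H60.Flow.Main

/-!
# Influences, displacements and the step inequality

`di i w` is the influence, `dl w L` is the mean of `|w(A) - w(A + L)|` (symmetric difference), `C4 w h` is four times the covariance.
-/

set_option autoImplicit false
set_option linter.unusedSectionVars false

open Finset

namespace Pool.Agent.H2.Centre

open Pool.Agent.H60.Flow

variable {ι : Type*} [Fintype ι] [DecidableEq ι]

/-- The influence of `i`. -/
noncomputable def di (i : ι) (w : Finset ι → ℝ) : ℝ := av (fun A => w (insert i A) - w (A.erase i))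

/-- The displacement along `L`. -/
noncomputable def dl (w : Finset ι → ℝ) (L : Finset ι) : ℝ := av (fun A => |w A - w (symmDiff A L)|)

/-- Four times the covariance. -/
noncomputable def C4 (w h : Finset ι → ℝ) : ℝ := 4 * (av (fun A => w A * h A) - av w * av h)

/-- Restriction to `i ∈ A`. -/
def up (i : ι) (w : Finset ι → ℝ) : Finset ι → ℝ := fun A => w (insert i A)

/-- Restriction to `i ∉ A`. -/
def dn (i : ι) (w : Finset ι → ℝ) : Finset ι → ℝ := fun A => w (A.erase i)

theorem up_mono {w : Finset ι → ℝ} (hw : Monotone w) (i : ι) : Monotone (up i w) := fun _ _ h =>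
  hw (Finset.insert_subset_insert i h)

theorem dn_mono {w : Finset ι → ℝ} (hw : Monotone w) (i : ι) : Monotone (dn i w) := fun _ _ h =>
  hw (Finset.erase_subset_erase i h)

theorem dn_le_up {w : Finset ι → ℝ} (hw : Monotone w) (i : ι) (A : Finset ι) : dn i w A ≤ up i w A :=
  hw ((Finset.erase_subset i A).trans (Finset.subset_insert i A))

theorem av_shift (L : Finset ι) (f : Finset ι → ℝ) : av (fun A => f (symmDiff A L)) = av f := by
  unfold av
  congr 1
  exact Equiv.sum_comp (Equiv.mk (fun A : Finset ι => symmDiff A L) (fun A => symmDiff A L)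
    (fun A => by simp) (fun A => by simp)) f

theorem di_eq (i : ι) (w : Finset ι → ℝ) : di i w = av (up i w) - av (dn i w) := by
  unfold di; rw [av_sub]; rfl

theorem di_kap (i : ι) (w : Finset ι → ℝ) : di i w = 2 * kap w i := by
  rw [kap_eq, ← av_mul_left]
  unfold di
  exact av_congr fun A => by ring

theorem di_nonneg {w : Finset ι → ℝ} (hw : Monotone w) (i : ι) : 0 ≤ di i w := by
  unfold di
  refine av_nonneg fun A => ?_
  have := dn_le_up hw i A
  unfold dn up at this
  linarith

theorem dl_nonneg (w : Finset ι → ℝ) (L : Finset ι) : 0 ≤ dl w L := av_nonneg fun _ => abs_nonneg _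

theorem dl_empty (w : Finset ι → ℝ) : dl w ∅ = 0 := by
  unfold dl
  have : ∀ A : Finset ι, |w A - w (symmDiff A ∅)| = 0 := by
    intro A
    have : symmDiff A (∅ : Finset ι) = A := symmDiff_bot A
    rw [this]; simp
  rw [av_congr this, av_const]

theorem C4_pm (i : ι) (w h : Finset ι → ℝ) :
    C4 w h = C4 (up i w) (up i h) / 2 + C4 (dn i w) (dn i h) / 2 + di i w * di i h := by
  have h1 : av (fun A => w A * h A) = (av (fun A => up i w A * up i h A) + av (fun A => dn i w A * dn i h A)) / 2 := by
    rw [av_pm i, ← av_add, div_eq_mul_inv, ← av_mul_right]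
    exact av_congr fun A => by unfold up dn; ring
  have h2 : ∀ w : Finset ι → ℝ, av w = (av (up i w) + av (dn i w)) / 2 := by
    intro w
    rw [av_pm i w, ← av_add, div_eq_mul_inv, ← av_mul_right]
    exact av_congr fun A => by unfold up dn; ring
  unfold C4
  rw [h1, h2 w, h2 h, di_eq, di_eq]
  ring

/-! ## Sets -/

theorem insert_symmDiff_of_mem {i : ι} {L : Finset ι} (hi : i ∈ L) (A : Finset ι) :
    symmDiff (insert i A) L = (symmDiff A L).erase i := by
  ext x
  simp only [Finset.mem_symmDiff, Finset.mem_insert, Finset.mem_erase]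
  by_cases hx : x = i
  · subst hx; simp [hi]
  · simp [hx]

theorem erase_symmDiff_of_mem {i : ι} {L : Finset ι} (hi : i ∈ L) (A : Finset ι) :
    symmDiff (A.erase i) L = insert i (symmDiff A L) := by
  ext x
  simp only [Finset.mem_symmDiff, Finset.mem_insert, Finset.mem_erase]
  by_cases hx : x = i
  · subst hx; simp [hi]
  · simp [hx]

theorem insert_symmDiff_of_notMem {i : ι} {L : Finset ι} (hi : i ∉ L) (A : Finset ι) :
    symmDiff (insert i A) L = insert i (symmDiff A L) := by
  ext x
  simp only [Finset.mem_symmDiff, Finset.mem_insert]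
  by_cases hx : x = i
  · subst hx; simp [hi]
  · simp [hx]

theorem erase_symmDiff_of_notMem {i : ι} {L : Finset ι} (hi : i ∉ L) (A : Finset ι) :
    symmDiff (A.erase i) L = (symmDiff A L).erase i := by
  ext x
  simp only [Finset.mem_symmDiff, Finset.mem_erase]
  by_cases hx : x = i
  · subst hx; simp [hi]
  · simp [hx]

theorem symm3 (A L' L'' : Finset ι) : symmDiff (symmDiff A L') (symmDiff L' L'') = symmDiff A L'' := by
  rw [symmDiff_assoc, ← symmDiff_assoc L' L' L'', symmDiff_self]
  congr 1
  exact bot_symmDiff L''

/-! ## The step inequality -/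

theorem four_real {a0 a1 a2 a3 b0 b1 b2 b3 : ℝ} (h0 : b0 ≤ a0) (h1 : b1 ≤ a1) (h2 : b2 ≤ a2) (h3 : b3 ≤ a3) :
    |a0 - a3| + |a1 - a2| + |b0 - b3| + |b1 - b2| ≤
      ((a0 - b0) + (a1 - b1) + (a2 - b2) + (a3 - b3)) +
        2 * (|a0 - a1| + |a2 - a3| + |b0 - b2| + |b1 - b3|) := by
  have p1 := le_abs_self (a0 - a1)
  have p2 := neg_le_abs (a0 - a1)
  have p3 := le_abs_self (a2 - a3)
  have p4 := neg_le_abs (a2 - a3)
  have p5 := le_abs_self (b0 - b2)
  have p6 := neg_le_abs (b0 - b2)
  have p7 := le_abs_self (b1 - b3)
  have p8 := neg_le_abs (b1 - b3)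
  rcases abs_cases (a0 - a3) with ⟨e1, -⟩ | ⟨e1, -⟩ <;> rcases abs_cases (a1 - a2) with ⟨e2, -⟩ | ⟨e2, -⟩ <;>
  rcases abs_cases (b0 - b3) with ⟨e3, -⟩ | ⟨e3, -⟩ <;> rcases abs_cases (b1 - b2) with ⟨e4, -⟩ | ⟨e4, -⟩ <;>
  rw [e1, e2, e3, e4] <;> linarith

/-- **The step inequality.** -/
theorem step {w : Finset ι → ℝ} (hw : Monotone w) (i : ι) (L' L'' : Finset ι) :
    dl w (symmDiff L' L'') ≤ di i w + dl (up i w) L' + dl (dn i w) L'' := by
  have hle := dn_le_up hw i
  set L := symmDiff L' L'' with hL
  by_cases hi : i ∈ L
  · -- the case of a coordinate in L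
    have e1 : dl w L = av (fun A => |w (insert i A) - w ((symmDiff A L).erase i)|) := by
      unfold dl
      rw [av_pm i]
      have : ∀ A : Finset ι, (|w (insert i A) - w (symmDiff (insert i A) L)| +
          |w (A.erase i) - w (symmDiff (A.erase i) L)|) / 2 =
          1 / 2 * |w (insert i A) - w ((symmDiff A L).erase i)| + 1 / 2 *
            |w (insert i (symmDiff A L)) - w ((symmDiff (symmDiff A L) L).erase i)| := by
        intro A
        rw [insert_symmDiff_of_mem hi, erase_symmDiff_of_mem hi, symmDiff_symmDiff_cancel_right,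
          abs_sub_comm (w (A.erase i))]
        ring
      rw [av_congr this, av_add, av_mul_left, av_mul_left,
        av_shift L (fun A => |w (insert i A) - w ((symmDiff A L).erase i)|)]
      ring
    rw [e1]
    have e2 : di i w = av (fun A => up i w (symmDiff A L') - dn i w (symmDiff A L')) := by
      rw [av_shift L' (fun A => up i w A - dn i w A)]; rfl
    have e3 : dl (dn i w) L'' = av (fun A => |dn i w (symmDiff A L') - dn i w (symmDiff (symmDiff A L') L'')|) := by
      rw [av_shift L' (fun A => |dn i w A - dn i w (symmDiff A L'')|)]; rfl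
    rw [e2, e3]
    unfold dl
    rw [← av_add, ← av_add]
    refine av_mono fun A => ?_
    have e4 : (symmDiff A L).erase i = (symmDiff (symmDiff A L') L'').erase i := by
      rw [hL, symmDiff_assoc]
    rw [e4]
    show |up i w A - dn i w (symmDiff (symmDiff A L') L'')| ≤ _
    have h1 := abs_sub_le (up i w A) (up i w (symmDiff A L')) (dn i w (symmDiff (symmDiff A L') L''))
    have h2 := abs_sub_le (up i w (symmDiff A L')) (dn i w (symmDiff A L')) (dn i w (symmDiff (symmDiff A L') L''))
    have h3 : |up i w (symmDiff A L') - dn i w (symmDiff A L')| = up i w (symmDiff A L') - dn i w (symmDiff A L') :=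
      abs_of_nonneg (sub_nonneg.2 (hle _))
    linarith
  · have e1 : 4 * dl w L = av (fun A => |up i w A - up i w (symmDiff A L)| +
        |up i w (symmDiff A L') - up i w (symmDiff A L'')| +
        |dn i w A - dn i w (symmDiff A L)| + |dn i w (symmDiff A L') - dn i w (symmDiff A L'')|) := by
      have e2 : dl w L = (av (fun A => |up i w A - up i w (symmDiff A L)|) +
          av (fun A => |dn i w A - dn i w (symmDiff A L)|)) / 2 := by
        unfold dl
        rw [av_pm i, ← av_add, div_eq_mul_inv (av _) 2, ← av_mul_right]
        refine av_congr fun A => ?_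
        rw [insert_symmDiff_of_notMem hi, erase_symmDiff_of_notMem hi]
        unfold up dn
        ring
      have e3 : ∀ u : Finset ι → ℝ, av (fun A => |u (symmDiff A L') - u (symmDiff A L'')|) =
          av (fun A => |u A - u (symmDiff A L)|) := by
        intro u
        rw [← av_shift L' (fun A => |u A - u (symmDiff A L)|)]
        refine av_congr fun A => ?_
        rw [hL, symm3]
      rw [av_add, av_add, av_add, e3, e3, e2]
      ring
    have e5 : 4 * (di i w + dl (up i w) L' + dl (dn i w) L'') = av (fun A =>
        ((up i w A - dn i w A) + (up i w (symmDiff A L') - dn i w (symmDiff A L')) +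
          (up i w (symmDiff A L'') - dn i w (symmDiff A L'')) + (up i w (symmDiff A L) - dn i w (symmDiff A L))) +
        2 * (|up i w A - up i w (symmDiff A L')| + |up i w (symmDiff A L'') - up i w (symmDiff A L)| +
          |dn i w A - dn i w (symmDiff A L'')| + |dn i w (symmDiff A L') - dn i w (symmDiff A L)|)) := by
      have f1 : ∀ M : Finset ι, av (fun A => up i w (symmDiff A M) - dn i w (symmDiff A M)) = di i w := by
        intro M
        rw [av_shift M (fun A => up i w A - dn i w A)]; rfl
      have f2 : av (fun A => up i w A - dn i w A) = di i w := rfl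
      have f3 : ∀ u : Finset ι → ℝ, av (fun A => |u (symmDiff A L'') - u (symmDiff A L)|) = dl u L' := by
        intro u
        unfold dl
        rw [← av_shift L'' (fun A => |u A - u (symmDiff A L')|)]
        refine av_congr fun A => ?_
        have : symmDiff A L = symmDiff (symmDiff A L'') L' := by
          rw [hL, symmDiff_comm L' L'', symmDiff_assoc]
        rw [this]
      have f4 : ∀ u : Finset ι → ℝ, av (fun A => |u (symmDiff A L') - u (symmDiff A L)|) = dl u L'' := by
        intro u
        unfold dl
        rw [← av_shift L' (fun A => |u A - u (symmDiff A L'')|)]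
        refine av_congr fun A => ?_
        have : symmDiff A L = symmDiff (symmDiff A L') L'' := by
          rw [hL, symmDiff_assoc]
        rw [this]
      rw [av_add, av_add, av_add, av_add, av_mul_left, av_add, av_add, av_add, f1, f1, f1, f2, f3, f4]
      unfold dl
      ring
    have h4 : 4 * dl w L ≤ 4 * (di i w + dl (up i w) L' + dl (dn i w) L'') := by
      rw [e1, e5]
      exact av_mono fun A => four_real (hle _) (hle _) (hle _) (hle _)
    linarith

theorem step_up {w : Finset ι → ℝ} (hw : Monotone w) (i : ι) (L : Finset ι) :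
    dl w L ≤ di i w + dl (up i w) L := by
  have h := step hw i L ∅
  have e : symmDiff L (∅ : Finset ι) = L := symmDiff_bot L
  rw [e, dl_empty] at h
  linarith

theorem step_dn {w : Finset ι → ℝ} (hw : Monotone w) (i : ι) (L : Finset ι) :
    dl w L ≤ di i w + dl (dn i w) L := by
  have h := step hw i ∅ L
  have e : symmDiff (∅ : Finset ι) L = L := bot_symmDiff L
  rw [e, dl_empty] at h
  linarith

/-! ## Functions of few coordinates -/

theorem Dep.inter {U : Finset ι} {w : Finset ι → ℝ} (h : Dep U w) (A : Finset ι) : w (A ∩ U) = w A := by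
  have key : ∀ T : Finset ι, Disjoint T U → w (A \ T) = w A := by
    intro T
    induction T using Finset.induction_on with
    | empty => intro _; simp
    | insert j T _ ih =>
      intro hT
      rw [Finset.disjoint_insert_left] at hT
      rw [← ih hT.2]
      have : A \ insert j T = (A \ T).erase j := by
        ext x; simp only [Finset.mem_sdiff, Finset.mem_insert, Finset.mem_erase]; tauto
      rw [this]
      exact h.erase hT.1 _
  have h1 := key (A \ U) Finset.sdiff_disjoint
  rw [← h1]
  congr 1
  ext x; simp only [Finset.mem_sdiff, Finset.mem_inter]; tauto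

theorem dl_congr {U : Finset ι} {w : Finset ι → ℝ} (h : Dep U w) {L M : Finset ι} (hLM : L ∩ U = M ∩ U) :
    dl w L = dl w M := by
  unfold dl
  refine av_congr fun A => ?_
  have : w (symmDiff A L) = w (symmDiff A M) := by
    rw [← Dep.inter h (symmDiff A L), ← Dep.inter h (symmDiff A M)]
    congr 1
    ext x
    have h1 := Finset.ext_iff.1 hLM x
    simp only [Finset.mem_inter, Finset.mem_symmDiff] at h1 ⊢
    tauto
  rw [this]

theorem dl_eq_zero {U : Finset ι} {w : Finset ι → ℝ} (h : Dep U w) {L : Finset ι} (hL : L ∩ U = ∅) :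
    dl w L = 0 := by
  rw [dl_congr h (M := ∅) (by rw [hL]; simp), dl_empty]

theorem dl_singleton {w : Finset ι → ℝ} (hw : Monotone w) (i : ι) : dl w {i} = di i w := by
  unfold dl di
  rw [av_pm i]
  refine av_congr fun A => ?_
  have e1 : symmDiff (insert i A) {i} = A.erase i := by
    rw [insert_symmDiff_of_mem (Finset.mem_singleton_self i)]
    ext x
    simp only [Finset.mem_symmDiff, Finset.mem_singleton, Finset.mem_erase]
    tauto
  have e2 : symmDiff (A.erase i) {i} = insert i A := by
    rw [erase_symmDiff_of_mem (Finset.mem_singleton_self i)]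
    ext x
    simp only [Finset.mem_symmDiff, Finset.mem_singleton, Finset.mem_insert]
    tauto
  have h1 := dn_le_up hw i A
  unfold up dn at h1
  rw [e1, e2, abs_sub_comm (w (A.erase i)), abs_of_nonneg (by linarith)]
  ring

theorem dl_eq_di {U : Finset ι} {w : Finset ι → ℝ} (hw : Monotone w) (h : Dep U w) {L : Finset ι} {i : ι}
    (hi : i ∈ U) (hL : L ∩ U = {i}) : dl w L = di i w := by
  rw [← dl_singleton hw]
  refine dl_congr h ?_
  rw [hL]
  ext x; simp only [Finset.mem_inter, Finset.mem_singleton]
  constructor
  · rintro rfl; exact ⟨rfl, hi⟩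
  · exact fun h => h.1

theorem dep_up {U : Finset ι} {w : Finset ι → ℝ} (h : Dep U w) (i : ι) : Dep (U.erase i) (up i w) := by
  intro j hj A
  unfold up
  by_cases hji : j = i
  · subst hji; rw [Finset.insert_idem]
  · rw [Finset.insert_comm]
    exact h j (fun hU => hj (Finset.mem_erase.2 ⟨hji, hU⟩)) _

theorem dep_dn {U : Finset ι} {w : Finset ι → ℝ} (h : Dep U w) (i : ι) : Dep (U.erase i) (dn i w) := by
  intro j hj A
  unfold dn
  by_cases hji : j = i
  · subst hji; rw [Finset.erase_insert_eq_erase]
  · have : (insert j A).erase i = insert j (A.erase i) := Finset.erase_insert_of_ne hji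
    rw [this]
    exact h j (fun hU => hj (Finset.mem_erase.2 ⟨hji, hU⟩)) _

theorem di_of_notMem {U : Finset ι} {w : Finset ι → ℝ} (h : Dep U w) {i : ι} (hi : i ∉ U) : di i w = 0 := by
  unfold di
  have : ∀ A : Finset ι, w (insert i A) - w (A.erase i) = 0 := by
    intro A; rw [h i hi, h.erase hi]; ring
  rw [av_congr this, av_const]

/-- The influence is the mean of the influences of the two restrictions. -/
theorem di_avg {i j : ι} (hij : i ≠ j) (w : Finset ι → ℝ) : di j w = (di j (up i w) + di j (dn i w)) / 2 := by
  unfold di
  rw [av_pm i, ← av_add, div_eq_mul_inv (av _) 2, ← av_mul_right]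
  refine av_congr fun A => ?_
  unfold up dn
  have e1 : (insert i A).erase j = insert i (A.erase j) := Finset.erase_insert_of_ne hij
  have e2 : insert j (A.erase i) = (insert j A).erase i := (Finset.erase_insert_of_ne hij.symm).symm
  have e3 : (A.erase i).erase j = (A.erase j).erase i := Finset.erase_right_comm
  rw [Finset.insert_comm j i A, e1, e2, e3]
  ring

theorem C4_empty {w : Finset ι → ℝ} (h : Dep ∅ w) (g : Finset ι → ℝ) : C4 w g = 0 := by
  have hc : ∀ A, w A = w ∅ := by
    intro A
    have := Dep.inter h A
    simpa using this.symm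
  unfold C4
  have e1 : av (fun A => w A * g A) = w ∅ * av g := by
    rw [← av_mul_left]; exact av_congr fun A => by rw [hc A]
  have e2 : av w = w ∅ := by rw [av_congr hc, av_const]
  rw [e1, e2]; ring

/-- Exchanging `a` for `j` increases `h`. -/
def Ex (a j : ι) (h : Finset ι → ℝ) : Prop := ∀ S : Finset ι, a ∉ S → j ∉ S → h (insert a S) ≤ h (insert j S)

theorem Ex.di_le {a j : ι} {h : Finset ι → ℝ} (H : Ex a j h) (haj : a ≠ j) : di a h ≤ di j h := by
  set G : Finset ι → ℝ := fun S => (h (insert j S) - h (S.erase j)) - (h (insert a S) - h (S.erase a)) with hG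
  have h1 : di j h - di a h = av G := by
    unfold di; rw [← av_sub]
  have key : ∀ T : Finset ι, a ∉ T → j ∉ T →
      0 ≤ ((G (insert a (insert j T)) + G (insert j T)) / 2 + (G (insert a T) + G T) / 2) / 2 := by
    intro T ha hj
    have e1 : insert j (insert a (insert j T)) = insert a (insert j T) := by
      ext x; by_cases h1 : x = a <;> by_cases h2 : x = j <;> simp_all
    have e2 : (insert a (insert j T)).erase j = insert a T := by
      ext x; by_cases h1 : x = a <;> by_cases h2 : x = j <;> simp_all
    have e3 : insert a (insert a (insert j T)) = insert a (insert j T) := by simp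
    have e4 : (insert a (insert j T)).erase a = insert j T := by
      ext x; by_cases h1 : x = a <;> by_cases h2 : x = j <;> simp_all
    have e5 : insert j (insert j T) = insert j T := by simp
    have e6 : (insert j T).erase j = T := Finset.erase_insert hj
    have e7 : (insert j T).erase a = insert j T := by
      ext x; by_cases h1 : x = a <;> by_cases h2 : x = j <;> simp_all
    have e8 : insert j (insert a T) = insert a (insert j T) := Finset.insert_comm _ _ _
    have e9 : (insert a T).erase j = insert a T := by
      ext x; by_cases h1 : x = a <;> by_cases h2 : x = j <;> simp_all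
    have e10 : insert a (insert a T) = insert a T := by simp
    have e11 : (insert a T).erase a = T := Finset.erase_insert ha
    have e12 : T.erase j = T := Finset.erase_eq_of_notMem hj
    have e13 : T.erase a = T := Finset.erase_eq_of_notMem ha
    have h0 := H T ha hj
    simp only [hG]
    rw [e1, e2, e3, e4, e5, e6, e7, e8, e9, e10, e11, e12, e13]
    linarith
  have h2 : 0 ≤ av G := by
    rw [av_pm a G, av_pm j]
    refine av_nonneg fun S => ?_
    have h3 := key ((S.erase j).erase a) (Finset.notMem_erase _ _) (by simp)
    have e1 : insert a (insert j S) = insert a (insert j ((S.erase j).erase a)) := by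
      ext x; by_cases h1 : x = a <;> by_cases h2 : x = j <;> simp_all
    have e2 : (insert j S).erase a = insert j ((S.erase j).erase a) := by
      ext x; by_cases h1 : x = a <;> by_cases h2 : x = j <;> simp_all
    have e3 : insert a (S.erase j) = insert a ((S.erase j).erase a) := by
      ext x; by_cases h1 : x = a <;> by_cases h2 : x = j <;> simp_all
    rw [← e1, ← e2, ← e3] at h3
    exact h3
  linarith

end Pool.Agent.H2.Centre
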