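import Pool.Agent.H2.Centre.Basic

/-!
# The covariance inequality for shifted functions
-/

set_option autoImplicit false
set_option linter.unusedSectionVars false

open Finset

namespace Pool.Agent.H2.Centre

open Pool.Agent.H60.Flow

variable {n : ℕ}

/-- Influence with a natural index. -/
noncomputable def kp (h : Finset (Fin n) → ℝ) (j : ℕ) : ℝ := if hj : j < n then di ⟨j, hj⟩ h else 0

/-- The initial segment. -/
def seg (n j : ℕ) : Finset (Fin n) := univ.filter (fun x : Fin n => x.val ≤ j)

/-- The final segment. -/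
def fin' (n m : ℕ) : Finset (Fin n) := univ.filter (fun x : Fin n => m ≤ x.val)

theorem Ex.up' {a j i : Fin n} {h : Finset (Fin n) → ℝ} (H : Ex a j h) (ha : a ≠ i) (hj : j ≠ i) : Ex a j (up i h) := by
  intro S haS hjS
  unfold up
  rw [Finset.insert_comm i a, Finset.insert_comm i j]
  exact H _ (by simp [ha, haS]) (by simp [hj, hjS])

theorem Ex.dn' {a j i : Fin n} {h : Finset (Fin n) → ℝ} (H : Ex a j h) (ha : a ≠ i) (hj : j ≠ i) : Ex a j (dn i h) := by
  intro S haS hjS
  unfold dn
  rw [Finset.erase_insert_of_ne ha, Finset.erase_insert_of_ne hj]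
  exact H _ (by simp [haS]) (by simp [hjS])

theorem fin_erase {m : ℕ} (hm : m < n) : (fin' n m).erase ⟨m, hm⟩ = fin' n (m + 1) := by
  ext x
  simp only [fin', Finset.mem_erase, Finset.mem_filter, Finset.mem_univ, true_and, ne_eq, Fin.ext_iff]
  omega

theorem kp_avg {m j : ℕ} (hm : m < n) (hj : m < j) (h : Finset (Fin n) → ℝ) :
    kp h j = (kp (up ⟨m, hm⟩ h) j + kp (dn ⟨m, hm⟩ h) j) / 2 := by
  unfold kp
  split_ifs with hjn
  · refine di_avg ?_ h
    intro he
    rw [Fin.ext_iff] at he
    simp at he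
    omega
  · simp

theorem kp_anti {m : ℕ} {h : Finset (Fin n) → ℝ} (hh : Monotone h)
    (H : ∀ i j : Fin n, m ≤ i.val → i < j → Ex j i h) {j : ℕ} (hj : m ≤ j) : 0 ≤ kp h j - kp h (j + 1) := by
  unfold kp
  by_cases h1 : j + 1 < n
  · have h0 : j < n := by omega
    rw [dif_pos h1, dif_pos h0]
    have hlt : (⟨j, h0⟩ : Fin n) < ⟨j + 1, h1⟩ := by
      rw [Fin.lt_def]; simp
    have := (H ⟨j, h0⟩ ⟨j + 1, h1⟩ hj hlt).di_le hlt.ne'
    linarith
  · rw [dif_neg h1]
    split_ifs
    · have := di_nonneg hh ⟨j, by assumption⟩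
      linarith
    · simp

theorem chain_aux (k : ℕ) : ∀ m : ℕ, m + k = n → ∀ w h : Finset (Fin n) → ℝ, Monotone w → Monotone h →
    Dep (fin' n m) w → Dep (fin' n m) h → (∀ i j : Fin n, m ≤ i.val → i < j → Ex j i h) →
    ∑ j ∈ Finset.Ico m n, (kp h j - kp h (j + 1)) * dl w (seg n j) ≤ C4 w h := by
  induction k with
  | zero =>
    intro m hm w h hw hh dw dh _
    have hmn : m = n := by omega
    subst hmn
    have he : fin' m m = ∅ := by
      ext x
      simp only [fin', Finset.mem_filter, Finset.mem_univ, true_and, Finset.notMem_empty, iff_false, not_le]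
      exact x.isLt
    rw [he] at dw
    rw [C4_empty dw]
    simp
  | succ k ih =>
    intro m hm w h hw hh dw dh H
    have hmn : m < n := by omega
    set i : Fin n := ⟨m, hmn⟩ with hi
    have hiU : i ∈ fin' n m := by simp [fin', hi]
    have dwu := dep_up dw i
    have dwd := dep_dn dw i
    have dhu := dep_up dh i
    have dhd := dep_dn dh i
    rw [hi, fin_erase hmn, ← hi] at dwu dwd dhu dhd
    have Hu : ∀ i' j : Fin n, m + 1 ≤ i'.val → i' < j → Ex j i' (up i h) := by
      intro i' j h1 h2
      refine (H i' j (by omega) h2).up' ?_ ?_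
      · intro he; rw [he, Fin.lt_def, hi] at h2; simp at h2; omega
      · intro he; rw [he, hi] at h1; simp at h1
    have Hd : ∀ i' j : Fin n, m + 1 ≤ i'.val → i' < j → Ex j i' (dn i h) := by
      intro i' j h1 h2
      refine (H i' j (by omega) h2).dn' ?_ ?_
      · intro he; rw [he, Fin.lt_def, hi] at h2; simp at h2; omega
      · intro he; rw [he, hi] at h1; simp at h1
    have IHu := ih (m + 1) (by omega) _ _ (up_mono hw i) (up_mono hh i) dwu dhu Hu
    have IHd := ih (m + 1) (by omega) _ _ (dn_mono hw i) (dn_mono hh i) dwd dhd Hd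
    have hsegi : seg n m ∩ fin' n m = {i} := by
      ext x
      simp only [seg, fin', Finset.mem_inter, Finset.mem_filter, Finset.mem_univ, true_and, Finset.mem_singleton,
        Fin.ext_iff, hi]
      omega
    have hD : dl w (seg n m) = di i w := dl_eq_di hw dw hiU hsegi
    have b1 : ∑ j ∈ Finset.Ico (m + 1) n, (kp (up i h) j - kp (up i h) (j + 1)) * (dl w (seg n j) - di i w) ≤
        C4 (up i w) (up i h) := by
      refine le_trans (Finset.sum_le_sum fun j hj => ?_) IHu
      rw [Finset.mem_Ico] at hj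
      refine mul_le_mul_of_nonneg_left ?_ (kp_anti (up_mono hh i) Hu hj.1)
      have := step_up hw i (seg n j)
      linarith
    have b2 : ∑ j ∈ Finset.Ico (m + 1) n, (kp (dn i h) j - kp (dn i h) (j + 1)) * (dl w (seg n j) - di i w) ≤
        C4 (dn i w) (dn i h) := by
      refine le_trans (Finset.sum_le_sum fun j hj => ?_) IHd
      rw [Finset.mem_Ico] at hj
      refine mul_le_mul_of_nonneg_left ?_ (kp_anti (dn_mono hh i) Hd hj.1)
      have := step_dn hw i (seg n j)
      linarith
    have b3 : ∑ j ∈ Finset.Ico (m + 1) n, (kp h j - kp h (j + 1)) * (dl w (seg n j) - di i w) ≤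
        C4 (up i w) (up i h) / 2 + C4 (dn i w) (dn i h) / 2 := by
      have e : ∑ j ∈ Finset.Ico (m + 1) n, (kp h j - kp h (j + 1)) * (dl w (seg n j) - di i w) =
          (∑ j ∈ Finset.Ico (m + 1) n, (kp (up i h) j - kp (up i h) (j + 1)) * (dl w (seg n j) - di i w)) / 2 +
          (∑ j ∈ Finset.Ico (m + 1) n, (kp (dn i h) j - kp (dn i h) (j + 1)) * (dl w (seg n j) - di i w)) / 2 := by
        rw [Finset.sum_div, Finset.sum_div, ← Finset.sum_add_distrib]
        refine Finset.sum_congr rfl fun j hj => ?_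
        rw [Finset.mem_Ico] at hj
        rw [kp_avg hmn (show m < j by omega) h, kp_avg hmn (show m < j + 1 by omega) h]
        ring
      rw [e]
      linarith
    have tel : ∑ j ∈ Finset.Ico (m + 1) n, (kp h j - kp h (j + 1)) = kp h (m + 1) := by
      have t1 := Finset.sum_Ico_sub (kp h) (show m + 1 ≤ n by omega)
      have t2 : kp h n = 0 := by unfold kp; simp
      rw [t2] at t1
      have t3 : ∑ j ∈ Finset.Ico (m + 1) n, (kp h j - kp h (j + 1)) =
          - ∑ j ∈ Finset.Ico (m + 1) n, (kp h (j + 1) - kp h j) := by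
        rw [← Finset.sum_neg_distrib]
        exact Finset.sum_congr rfl fun j _ => by ring
      rw [t3, t1]; ring
    have b4 : ∑ j ∈ Finset.Ico (m + 1) n, (kp h j - kp h (j + 1)) * (dl w (seg n j) - di i w) =
        ∑ j ∈ Finset.Ico (m + 1) n, (kp h j - kp h (j + 1)) * dl w (seg n j) - kp h (m + 1) * di i w := by
      rw [← tel, Finset.sum_mul, ← Finset.sum_sub_distrib]
      exact Finset.sum_congr rfl fun j _ => by ring
    have hkm : kp h m = di i h := by unfold kp; rw [dif_pos hmn]
    rw [Finset.sum_eq_sum_Ico_succ_bot hmn, hD, C4_pm i w h, hkm]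
    rw [b4] at b3
    linarith

/-- **The covariance inequality for shifted functions.** -/
theorem chain {w h : Finset (Fin n) → ℝ} (hw : Monotone w) (hh : Monotone h)
    (H : ∀ i j : Fin n, i < j → Ex j i h) :
    ∑ j ∈ Finset.range n, (kp h j - kp h (j + 1)) * dl w (seg n j) ≤ C4 w h := by
  have hU : fin' n 0 = univ := by
    ext x; simp [fin']
  have hdep : ∀ u : Finset (Fin n) → ℝ, Dep (fin' n 0) u := by
    intro u j hj
    rw [hU] at hj
    exact absurd (Finset.mem_univ j) hj
  have := chain_aux n 0 (by omega) w h hw hh (hdep w) (hdep h) (fun i j _ hij => H i j hij)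
  rwa [Nat.Ico_zero_eq_range] at this

end Pool.Agent.H2.Centre
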