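import Pool.Agent.H2.Centre.Basic

/-!
# Flows along a preorder: Strassen's theorem (after `Pool.Agent.H60.Flow.Flow`)
-/

set_option autoImplicit false
set_option linter.unusedSectionVars false

open Finset

namespace Pool.Agent.H2.Centre

variable {ι : Type*} [Fintype ι] [DecidableEq ι]

/-- `g` flows to `h` along the relation `r`: mass may be moved from `A` to `B` only if `r A B`. -/
def FlowsAlong (r : Finset ι → Finset ι → Prop) (g h : Finset ι → ℝ) : Prop :=
  ∃ v : Finset ι → Finset ι → ℝ, (∀ A B, 0 ≤ v A B) ∧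
    (∀ A, ∑ B, v A B = g A) ∧ (∀ B, ∑ A, v A B = h B) ∧ ∀ A B, ¬ r A B → v A B = 0

theorem sum_mul_le_of_flowsAlong {r : Finset ι → Finset ι → Prop} {g h : Finset ι → ℝ} (H : FlowsAlong r g h)
    {K : Finset ι → ℝ} (hK : ∀ A B, r A B → K A ≤ K B) :
    ∑ A, K A * g A ≤ ∑ A, K A * h A := by
  obtain ⟨v, h0, h1, h2, h3⟩ := H
  have e1 : ∑ A, K A * g A = ∑ A, ∑ B, K A * v A B := by
    refine Finset.sum_congr rfl fun A _ => ?_
    rw [← h1 A, Finset.mul_sum]
  have e2 : ∑ B, K B * h B = ∑ A, ∑ B, K B * v A B := by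
    rw [Finset.sum_comm]
    refine Finset.sum_congr rfl fun B _ => ?_
    rw [← h2 B, Finset.mul_sum]
  rw [e1, e2]
  refine Finset.sum_le_sum fun A _ => Finset.sum_le_sum fun B _ => ?_
  by_cases hAB : r A B
  · exact mul_le_mul_of_nonneg_right (hK A B hAB) (h0 A B)
  · rw [h3 A B hAB]; simp

open Classical in
/-- Strassen's theorem. -/
theorem flowsAlong_of_le {r : Finset ι → Finset ι → Prop} (hr : ∀ A, r A A) (hrt : ∀ A B C, r A B → r B C → r A C)
    {g h : Finset ι → ℝ} (hg : ∀ A, 0 ≤ g A) (hh : ∀ A, 0 ≤ h A)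
    (H : ∀ K : Finset ι → ℝ, (∀ A B, r A B → K A ≤ K B) → ∑ A, K A * g A ≤ ∑ A, K A * h A) :
    FlowsAlong r g h := by
  have hsum : ∑ A, g A = ∑ A, h A := by
    have h1 := H (fun _ => 1) (fun _ _ _ => le_rfl)
    have h2 := H (fun _ => -1) (fun _ _ _ => le_rfl)
    simp only [one_mul, neg_mul, Finset.sum_neg_distrib] at h1 h2
    linarith
  rcases (Finset.sum_nonneg fun A _ => hg A : 0 ≤ ∑ A, g A).eq_or_lt with hm | hm
  · have g0 : ∀ A, g A = 0 := fun A =>
      (Finset.sum_eq_zero_iff_of_nonneg fun A _ => hg A).1 hm.symm A (Finset.mem_univ A)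
    have h0 : ∀ A, h A = 0 := fun A =>
      (Finset.sum_eq_zero_iff_of_nonneg fun A _ => hh A).1 (hsum ▸ hm.symm) A (Finset.mem_univ A)
    exact ⟨fun _ _ => 0, fun _ _ => le_rfl, fun A => by simp [g0 A], fun A => by simp [h0 A], fun _ _ _ => rfl⟩
  set m := ∑ A, g A with hmdef
  -- the compact set of the plans
  let V : Set (Finset ι × Finset ι → ℝ) :=
    {v | (∀ x, v x ∈ Set.Icc 0 m) ∧ ∑ x, v x = m ∧ ∀ x, ¬ r x.1 x.2 → v x = 0}
  have hVc : IsCompact V := by
    have h1 : IsCompact (Set.pi Set.univ (fun _ : Finset ι × Finset ι => Set.Icc (0 : ℝ) m)) :=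
      isCompact_univ_pi fun _ => isCompact_Icc
    have h2 : IsClosed {v : Finset ι × Finset ι → ℝ | ∑ x, v x = m ∧ ∀ x, ¬ r x.1 x.2 → v x = 0} := by
      apply IsClosed.and
      · exact isClosed_eq (continuous_finsetSum _ fun i _ => continuous_apply i) continuous_const
      · simp only [Set.ofPred_forall]
        exact isClosed_iInter fun x => isClosed_iInter fun _ => isClosed_eq (continuous_apply x) continuous_const
    have : V = Set.pi Set.univ (fun _ : Finset ι × Finset ι => Set.Icc (0 : ℝ) m) ∩
        {v : Finset ι × Finset ι → ℝ | ∑ x, v x = m ∧ ∀ x, ¬ r x.1 x.2 → v x = 0} := by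
      ext v; simp only [V, Set.mem_ofPred_eq, Set.mem_inter_iff, Set.mem_pi, Set.mem_univ, true_implies]
    rw [this]
    exact h1.inter_right h2
  let L : (Finset ι × Finset ι → ℝ) →ₗ[ℝ] (Finset ι → ℝ) × (Finset ι → ℝ) :=
    { toFun := fun v => (fun A => ∑ B, v (A, B), fun B => ∑ A, v (A, B))
      map_add' := fun v v' => by ext <;> simp [Finset.sum_add_distrib]
      map_smul' := fun c v => by ext <;> simp [Finset.mul_sum] }
  have hLc : Continuous L := LinearMap.continuous_of_finiteDimensional L
  have hVconv : Convex ℝ V := by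
    rintro v ⟨v1, v2, v3⟩ v' ⟨w1, w2, w3⟩ a b ha hb hab
    refine ⟨fun x => ⟨?_, ?_⟩, ?_, ?_⟩
    · simp only [Pi.add_apply, Pi.smul_apply, smul_eq_mul]
      exact add_nonneg (mul_nonneg ha (v1 x).1) (mul_nonneg hb (w1 x).1)
    · simp only [Pi.add_apply, Pi.smul_apply, smul_eq_mul]
      have e1 := mul_le_mul_of_nonneg_left (v1 x).2 ha
      have e2 := mul_le_mul_of_nonneg_left (w1 x).2 hb
      have e3 : a * m + b * m = m := by rw [← add_mul, hab, one_mul]
      linarith
    · simp only [Pi.add_apply, Pi.smul_apply, smul_eq_mul, Finset.sum_add_distrib, ← Finset.mul_sum]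
      rw [v2, w2, ← add_mul, hab, one_mul]
    · intro x hx
      simp only [Pi.add_apply, Pi.smul_apply, smul_eq_mul, v3 x hx, w3 x hx]; ring
  have hC1 : IsCompact (L '' V) := hVc.image hLc
  have hC2 : Convex ℝ (L '' V) := hVconv.linear_image L
  by_cases hmem : (g, h) ∈ L '' V
  · obtain ⟨v, ⟨v1, v2, v3⟩, hv⟩ := hmem
    refine ⟨fun A B => v (A, B), fun A B => (v1 (A, B)).1, fun A => ?_, fun B => ?_, fun A B hAB => v3 (A, B) hAB⟩
    · exact congrFun (congrArg Prod.fst hv) A
    · exact congrFun (congrArg Prod.snd hv) B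
  · exfalso
    obtain ⟨f, s, hs1, hs2⟩ := geometric_hahn_banach_closed_point hC2 hC1.isClosed hmem
    let a : Finset ι → ℝ := fun A => f (Pi.single A 1, 0)
    let b : Finset ι → ℝ := fun B => f (0, Pi.single B 1)
    have hf : ∀ x y : Finset ι → ℝ, f (x, y) = ∑ A, x A * a A + ∑ B, y B * b B := by
      intro x y
      have e1 : ((x, y) : (Finset ι → ℝ) × (Finset ι → ℝ)) =
          ∑ A, x A • ((Pi.single A 1, 0) : (Finset ι → ℝ) × (Finset ι → ℝ)) +
          ∑ B, y B • ((0, Pi.single B 1) : (Finset ι → ℝ) × (Finset ι → ℝ)) := by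
        apply Prod.ext
        · funext C
          simp [Prod.fst_sum, Finset.sum_apply, Pi.single_apply]
        · funext C
          simp [Prod.snd_sum, Finset.sum_apply, Pi.single_apply]
      rw [e1, map_add, map_sum, map_sum]
      simp only [map_smul, smul_eq_mul]
      rfl
    have hab : ∀ A B : Finset ι, r A B → m * (a A + b B) < s := by
      intro A B hAB
      let v : Finset ι × Finset ι → ℝ := Pi.single (A, B) m
      have hv : v ∈ V := by
        refine ⟨fun x => ?_, ?_, ?_⟩
        · by_cases hx : x = (A, B)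
          · rw [hx]; simp [v, hm.le]
          · simp [v, Pi.single_eq_of_ne hx, hm.le]
        · simp [v]
        · intro x hx
          have : x ≠ (A, B) := by rintro rfl; exact hx hAB
          simp [v, Pi.single_eq_of_ne this]
      have h1 := hs1 (L v) ⟨v, hv, rfl⟩
      have h2 : L v = (Pi.single A m, Pi.single B m) := by
        apply Prod.ext
        · funext C
          show ∑ D, v (C, D) = (Pi.single A m : Finset ι → ℝ) C
          by_cases hC : C = A
          · subst hC
            rw [Finset.sum_eq_single B]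
            · simp [v]
            · intro D _ hD
              have : (C, D) ≠ (C, B) := fun h => hD (congrArg Prod.snd h)
              simp [v, Pi.single_eq_of_ne this]
            · simp
          · rw [Pi.single_eq_of_ne hC]
            refine Finset.sum_eq_zero fun D _ => ?_
            have : (C, D) ≠ (A, B) := fun h => hC (congrArg Prod.fst h)
            simp [v, Pi.single_eq_of_ne this]
        · funext C
          show ∑ D, v (D, C) = (Pi.single B m : Finset ι → ℝ) C
          by_cases hC : C = B
          · subst hC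
            rw [Finset.sum_eq_single A]
            · simp [v]
            · intro D _ hD
              have : (D, C) ≠ (A, C) := fun h => hD (congrArg Prod.fst h)
              simp [v, Pi.single_eq_of_ne this]
            · simp
          · rw [Pi.single_eq_of_ne hC]
            refine Finset.sum_eq_zero fun D _ => ?_
            have : (D, C) ≠ (A, B) := fun h => hC (congrArg Prod.snd h)
            simp [v, Pi.single_eq_of_ne this]
      rw [h2, hf] at h1
      simp only [Pi.single_apply, ite_mul, zero_mul, Finset.sum_ite_eq', Finset.mem_univ, if_true] at h1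
      linarith
    rw [hf] at hs2
    -- the monotone function
    have hne : ∀ B : Finset ι, (univ.filter (fun A : Finset ι => r A B)).Nonempty := fun B => ⟨B, by simp [hr B]⟩
    let K : Finset ι → ℝ := fun B => (univ.filter (fun A : Finset ι => r A B)).sup' (hne B) (fun A => a A - s / m)
    have hKm : ∀ B B', r B B' → K B ≤ K B' := by
      intro B B' hBB'
      refine Finset.sup'_mono _ ?_ _
      intro A hA
      rw [Finset.mem_filter] at hA ⊢
      exact ⟨hA.1, hrt A B B' hA.2 hBB'⟩
    have hK1 : ∀ A, a A - s / m ≤ K A := fun A =>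
      Finset.le_sup' (f := fun A => a A - s / m) (s := univ.filter (fun A' : Finset ι => r A' A)) (by simp [hr A])
    have hK2 : ∀ B, K B ≤ - b B := by
      intro B
      refine Finset.sup'_le _ _ fun A hA => ?_
      have h1 := hab A B (Finset.mem_filter.1 hA).2
      have h2 : a A + b B < s / m := by rw [lt_div_iff₀ hm]; linarith
      linarith
    have h1 := H K hKm
    have h2 : ∑ A, (a A - s / m) * g A ≤ ∑ A, K A * g A :=
      Finset.sum_le_sum fun A _ => mul_le_mul_of_nonneg_right (hK1 A) (hg A)
    have h3 : ∑ A, K A * h A ≤ ∑ A, - b A * h A :=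
      Finset.sum_le_sum fun A _ => mul_le_mul_of_nonneg_right (hK2 A) (hh A)
    have h4 : ∑ A, (a A - s / m) * g A = ∑ A, g A * a A - s := by
      have : ∀ A, (a A - s / m) * g A = g A * a A - (s / m) * g A := fun A => by ring
      simp only [this, Finset.sum_sub_distrib, ← Finset.mul_sum]
      rw [← hmdef, div_mul_cancel₀ _ hm.ne']
    have h5 : ∑ A, - b A * h A = - ∑ A, h A * b A := by
      rw [← Finset.sum_neg_distrib]
      exact Finset.sum_congr rfl fun A _ => by ring
    rw [h4] at h2
    rw [h5] at h3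
    linarith

end Pool.Agent.H2.Centre
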