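import Pool.Agent.H2.Centre.Basic
import Pool.Agent.H60.Flow.Cor

/-!
# Displacements of the squared positive part of an antipodal function
-/

set_option autoImplicit false
set_option linter.unusedSectionVars false

open Finset

namespace Pool.Agent.H2.Centre

open Pool.Agent.H60.Flow

variable {n : ℕ}

theorem sg_symmDiff (A L : Finset (Fin n)) (i : Fin n) :
    sg (symmDiff A L) i = (if i ∈ L then -1 else 1) * sg A i := by
  unfold sg
  by_cases h1 : i ∈ A <;> by_cases h2 : i ∈ L <;> simp [Finset.mem_symmDiff, h1, h2]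

theorem ch_symmDiff (T A L : Finset (Fin n)) : ch T (symmDiff A L) = (-1) ^ (T ∩ L).card * ch T A := by
  unfold ch
  simp only [sg_symmDiff]
  rw [Finset.prod_mul_distrib]
  congr 1
  rw [Finset.prod_ite, Finset.prod_const_one, mul_one, Finset.prod_const, Finset.filter_mem_eq_inter]

theorem hat_shift (f : Finset (Fin n) → ℝ) (L T : Finset (Fin n)) :
    hat (fun A => f (symmDiff A L)) T = (-1) ^ (T ∩ L).card * hat f T := by
  unfold hat
  rw [← av_mul_left, ← av_shift L (fun A => (-1) ^ (T ∩ L).card * (f A * ch T A))]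
  refine av_congr fun A => ?_
  rw [ch_symmDiff]
  have : ((-1 : ℝ) ^ (T ∩ L).card) * (-1) ^ (T ∩ L).card = 1 := by
    rw [← mul_pow]; norm_num
  linear_combination (-(f (symmDiff A L) * ch T A)) * this

theorem av_diff_sq (f : Finset (Fin n) → ℝ) (L : Finset (Fin n)) :
    av (fun A => (f A - f (symmDiff A L)) ^ 2) = 4 * ∑ T : Finset (Fin n), (if Odd (T ∩ L).card then hat f T ^ 2 else 0) := by
  rw [← parseval (fun A => f A - f (symmDiff A L)), Finset.mul_sum]
  refine Finset.sum_congr rfl fun T _ => ?_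
  rw [hat_sub, hat_shift]
  split_ifs with h
  · rw [h.neg_one_pow]; ring
  · rw [(Nat.not_odd_iff_even.1 h).neg_one_pow]; ring

theorem real_ineq (a c : ℝ) :
    (a - c) ^ 2 / 2 ≤ |(max a 0) ^ 2 - (max c 0) ^ 2| + |(max (-a) 0) ^ 2 - (max (-c) 0) ^ 2| := by
  have h1 := le_abs_self ((max a 0) ^ 2 - (max c 0) ^ 2)
  have h2 := neg_le_abs ((max a 0) ^ 2 - (max c 0) ^ 2)
  have h3 := le_abs_self ((max (-a) 0) ^ 2 - (max (-c) 0) ^ 2)
  have h4 := neg_le_abs ((max (-a) 0) ^ 2 - (max (-c) 0) ^ 2)
  have h5 := abs_nonneg ((max a 0) ^ 2 - (max c 0) ^ 2)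
  have h6 := abs_nonneg ((max (-a) 0) ^ 2 - (max (-c) 0) ^ 2)
  generalize |(max a 0) ^ 2 - (max c 0) ^ 2| = u at *
  generalize |(max (-a) 0) ^ 2 - (max (-c) 0) ^ 2| = v at *
  rcases le_total 0 a with ha | ha <;> rcases le_total 0 c with hc | hc
  · rw [max_eq_left ha, max_eq_left hc] at h1 h2
    rcases le_total a c with h | h
    · nlinarith
    · nlinarith
  · rw [max_eq_left ha, max_eq_right hc] at h1 h2
    rw [max_eq_right (by linarith : -a ≤ 0), max_eq_left (by linarith : 0 ≤ -c)] at h3 h4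
    nlinarith [sq_nonneg (a + c)]
  · rw [max_eq_right ha, max_eq_left hc] at h1 h2
    rw [max_eq_left (by linarith : 0 ≤ -a), max_eq_right (by linarith : -c ≤ 0)] at h3 h4
    nlinarith [sq_nonneg (a + c)]
  · rw [max_eq_left (by linarith : 0 ≤ -a), max_eq_left (by linarith : 0 ≤ -c)] at h3 h4
    rcases le_total a c with h | h
    · nlinarith
    · nlinarith

theorem compl_symmDiff (A L : Finset (Fin n)) : symmDiff Aᶜ L = (symmDiff A L)ᶜ := by
  ext x; simp only [Finset.mem_symmDiff, Finset.mem_compl]; tauto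

/-- **Displacements of `f^*`.** -/
theorem dl_sqp {f : Finset (Fin n) → ℝ} (hf : Antip f) (L : Finset (Fin n)) :
    ∑ T : Finset (Fin n), (if Odd (T ∩ L).card then hat f T ^ 2 else 0) ≤ dl (sqp f) L := by
  have h1 : dl (sqp f) L = av (fun A => |(max (- f A) 0) ^ 2 - (max (- f (symmDiff A L)) 0) ^ 2|) := by
    unfold dl
    rw [← av_compl]
    refine av_congr fun A => ?_
    rw [compl_symmDiff]
    unfold sqp
    rw [hf, hf]
  have h2 : dl (sqp f) L = av (fun A => |(max (f A) 0) ^ 2 - (max (f (symmDiff A L)) 0) ^ 2|) := rfl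
  have h3 : av (fun A => (f A - f (symmDiff A L)) ^ 2 * (1 / 2)) ≤
      av (fun A => |(max (f A) 0) ^ 2 - (max (f (symmDiff A L)) 0) ^ 2| +
        |(max (- f A) 0) ^ 2 - (max (- f (symmDiff A L)) 0) ^ 2|) := by
    refine av_mono fun A => ?_
    have := real_ineq (f A) (f (symmDiff A L))
    linarith
  rw [av_add, ← h1, ← h2, av_mul_right, av_diff_sq] at h3
  linarith

/-- The influences of an increasing function, tested on the first centre inequality. -/
theorem C4_sqp {f : Finset (Fin n) → ℝ} (hf : Antip f) (K : Finset (Fin n) → ℝ) :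
    4 * av (fun A => K A * sqp f A) = C4 (sqp f) K + 2 * (av (fun A => f A ^ 2) * av K) := by
  unfold C4
  rw [av_sqp hf]
  have : av (fun A => K A * sqp f A) = av (fun A => sqp f A * K A) := av_congr fun A => by ring
  rw [this]
  ring

theorem av_antip {f : Finset (Fin n) → ℝ} (hf : Antip f) : av f = 0 := by
  have := hat_odd hf (T := ∅) (by simp)
  rwa [hat_empty] at this

end Pool.Agent.H2.Centre
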