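import Pool.Agent.H2.Centre.Two
import Pool.Agent.H2.Centre.Chain
import Pool.Agent.H2.Centre.Four
import Pool.Agent.H2.Centre.Fl
import Pool.Agent.H39.Noise.Cor

/-!
# Flows in the shift order and the theorem with two centres
-/

set_option autoImplicit false
set_option linter.unusedSectionVars false

open Finset

namespace Pool.Agent.H2.Centre

open Pool.Agent.H60.Flow

variable {n : ℕ}

/-- Adding an element, or replacing an element by a smaller one. -/
def ShiftStep (A B : Finset (Fin n)) : Prop :=
  (∃ x, B = insert x A) ∨ ∃ i j : Fin n, i < j ∧ j ∈ A ∧ i ∉ A ∧ B = insert i (A.erase j)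

/-- Several steps. -/
def Shift : Finset (Fin n) → Finset (Fin n) → Prop := Relation.ReflTransGen ShiftStep

/-- Adding an element, or replacing `a` by an element of `X`, or replacing `b` by an element outside `X`. -/
def TwoStep (X : Finset (Fin n)) (a b : Fin n) (A B : Finset (Fin n)) : Prop :=
  (∃ x, B = insert x A) ∨ (∃ j ∈ X, a ∈ A ∧ j ∉ A ∧ B = insert j (A.erase a)) ∨
    ∃ j ∉ X, b ∈ A ∧ j ∉ A ∧ B = insert j (A.erase b)

/-- Several steps. -/
def Two (X : Finset (Fin n)) (a b : Fin n) : Finset (Fin n) → Finset (Fin n) → Prop :=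
  Relation.ReflTransGen (TwoStep X a b)

/-- The sum of `fw f T ^ 2` over all `T` for which `T ∩ X` has an odd number of elements. -/
noncomputable def oddW (f : Finset (Fin n) → ℝ) (X : Finset (Fin n)) : ℝ :=
  ∑ T ∈ univ.filter (fun T : Finset (Fin n) => Odd (T ∩ X).card), fw f T ^ 2

theorem mono_of_insert {K : Finset (Fin n) → ℝ} (H : ∀ A x, K A ≤ K (insert x A)) : Monotone K := by
  have key : ∀ T A : Finset (Fin n), K A ≤ K (A ∪ T) := by
    intro T
    induction T using Finset.induction_on with
    | empty => intro A; simp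
    | insert j T _ ih =>
      intro A
      refine (ih A).trans ?_
      have : A ∪ insert j T = insert j (A ∪ T) := by
        ext x; simp only [Finset.mem_union, Finset.mem_insert]; tauto
      rw [this]
      exact H _ _
  intro A B hAB
  have := key B A
  rwa [Finset.union_eq_right.2 hAB] at this

theorem sqp_mono {f : Finset (Fin n) → ℝ} (hf : Monotone f) : Monotone (sqp f) := by
  intro A B hAB
  unfold sqp
  exact pow_le_pow_left₀ (le_max_right _ _) (max_le_max (hf hAB) le_rfl) 2

theorem seg_subset_iff {T : Finset (Fin n)} (hT : T.Nonempty) (j : ℕ) : T ⊆ seg n j ↔ (T.max' hT).val ≤ j := by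
  constructor
  · intro h
    have := h (T.max'_mem hT)
    simpa [seg] using this
  · intro h x hx
    have h1 := T.le_max' x hx
    rw [Fin.le_def] at h1
    simp only [seg, Finset.mem_filter, Finset.mem_univ, true_and]
    omega

theorem sum_lam_di_le {f K : Finset (Fin n) → ℝ} (hf : Monotone f) (ha : Antip f) (hK : Monotone K)
    (H : ∀ i j : Fin n, i < j → Ex j i K) : ∑ i, lam f i * di i K ≤ C4 (sqp f) K := by
  refine le_trans ?_ (chain (sqp_mono hf) hK H)
  -- lower bound for the displacements
  have h1 : ∀ j, ∑ T : Finset (Fin n), (if T ⊆ seg n j then hat f T ^ 2 else 0) ≤ dl (sqp f) (seg n j) := by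
    intro j
    refine le_trans (Finset.sum_le_sum fun T _ => ?_) (dl_sqp ha (seg n j))
    split_ifs with h2 h3 h3
    · exact le_rfl
    · rw [Finset.inter_eq_left.2 h2, Nat.not_odd_iff_even] at h3
      rw [hat_odd ha h3]; simp
    · exact sq_nonneg _
    · exact le_rfl
  have h2 : ∑ j ∈ Finset.range n, (kp K j - kp K (j + 1)) *
      ∑ T : Finset (Fin n), (if T ⊆ seg n j then hat f T ^ 2 else 0) ≤
      ∑ j ∈ Finset.range n, (kp K j - kp K (j + 1)) * dl (sqp f) (seg n j) := by
    refine Finset.sum_le_sum fun j _ => mul_le_mul_of_nonneg_left (h1 j) ?_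
    exact kp_anti (m := 0) hK (fun i j _ hij => H i j hij) (Nat.zero_le j)
  refine le_trans (le_of_eq ?_) h2
  rw [sum_lam_mul]
  simp only [Finset.mul_sum]
  rw [Finset.sum_comm]
  refine Finset.sum_congr rfl fun T _ => ?_
  split_ifs with hT
  · set t := T.max' hT with ht
    have e1 : ∀ j, (kp K j - kp K (j + 1)) * (if T ⊆ seg n j then hat f T ^ 2 else 0) =
        (if t.val ≤ j then (kp K j - kp K (j + 1)) else 0) * hat f T ^ 2 := by
      intro j
      have := seg_subset_iff hT j
      rw [← ht] at this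
      by_cases h : t.val ≤ j
      · rw [if_pos h, if_pos (this.2 h)]
      · rw [if_neg h, if_neg (fun h' => h (this.1 h'))]; ring
    simp only [e1]
    rw [← Finset.sum_mul]
    congr 1
    have e2 : ∑ j ∈ Finset.range n, (if t.val ≤ j then (kp K j - kp K (j + 1)) else 0) =
        ∑ j ∈ Finset.Ico t.val n, (kp K j - kp K (j + 1)) := by
      rw [← Finset.sum_filter]
      refine Finset.sum_congr ?_ fun _ _ => rfl
      ext j; simp only [Finset.mem_filter, Finset.mem_range, Finset.mem_Ico]; tauto
    have t1 := Finset.sum_Ico_sub (kp K) (show t.val ≤ n from t.isLt.le)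
    have t2 : kp K n = 0 := by unfold kp; simp
    have t3 : kp K t.val = di t K := by unfold kp; rw [dif_pos t.isLt]
    have t4 : ∑ j ∈ Finset.Ico t.val n, (kp K j - kp K (j + 1)) =
        - ∑ j ∈ Finset.Ico t.val n, (kp K (j + 1) - kp K j) := by
      rw [← Finset.sum_neg_distrib]
      exact Finset.sum_congr rfl fun j _ => by ring
    rw [e2, t4, t1, t2, t3]; ring
  · have h0 : T = ∅ := Finset.not_nonempty_iff_eq_empty.1 hT
    have h3 : hat f T = 0 := by rw [h0]; exact hat_odd ha (by simp)
    rw [h3]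
    simp

theorem flowsAlong_of_av {r : Finset (Fin n) → Finset (Fin n) → Prop} (hr : ∀ A, r A A)
    (hrt : ∀ A B C, r A B → r B C → r A C) {g h : Finset (Fin n) → ℝ} (hg : ∀ A, 0 ≤ g A) (hh : ∀ A, 0 ≤ h A)
    (H : ∀ K : Finset (Fin n) → ℝ, (∀ A B, r A B → K A ≤ K B) → av (fun A => K A * g A) ≤ av (fun A => K A * h A)) :
    FlowsAlong r g h := by
  refine flowsAlong_of_le hr hrt hg hh fun K hK => ?_
  rw [sum_eq_av, sum_eq_av]
  exact mul_le_mul_of_nonneg_left (H K hK) (by positivity)

/-- **The conjectured flow, in the shift order.** -/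
theorem shiftFlow (f : Finset (Fin n) → ℝ) (hf : Monotone f) (ha : Antip f) : FlowsAlong Shift (til f) (sqp f) := by
  refine flowsAlong_of_av (fun _ => Relation.ReflTransGen.refl) (fun _ _ _ h1 h2 => Relation.ReflTransGen.trans h1 h2)
    (fun A => til_nonneg f A) (fun A => sq_nonneg _) fun K hK => ?_
  have hKm : Monotone K := mono_of_insert fun A x => hK _ _ (Relation.ReflTransGen.single (Or.inl ⟨x, rfl⟩))
  have hKe : ∀ i j : Fin n, i < j → Ex j i K := by
    intro i j hij S hj hi
    refine hK _ _ (Relation.ReflTransGen.single (Or.inr ⟨i, j, hij, Finset.mem_insert_self j S, ?_, ?_⟩))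
    · simp [hij.ne, hi]
    · rw [Finset.erase_insert hj]
  have h1 := sum_lam_di_le hf ha hKm hKe
  have h2 := C4_sqp ha K
  have h3 : ∑ i, lam f i * di i K = 2 * ∑ i, lam f i * kap K i := by
    rw [Finset.mul_sum]
    exact Finset.sum_congr rfl fun i _ => by rw [di_kap]; ring
  rw [av_mul_til, av_antip ha]
  linarith

theorem oddW_eq (f : Finset (Fin n) → ℝ) (X : Finset (Fin n)) :
    oddW f X = ∑ T : Finset (Fin n), (if Odd (T ∩ X).card then hat f T ^ 2 else 0) := by
  unfold oddW
  rw [Finset.sum_filter]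
  exact Finset.sum_congr rfl fun T _ => by rw [fw_sq]

theorem oddW_nonneg (f : Finset (Fin n) → ℝ) (X : Finset (Fin n)) : 0 ≤ oddW f X :=
  Finset.sum_nonneg fun _ _ => sq_nonneg _

theorem oddW_add {f : Finset (Fin n) → ℝ} (ha : Antip f) (X : Finset (Fin n)) :
    oddW f X + oddW f Xᶜ = av (fun A => f A ^ 2) := by
  rw [oddW_eq, oddW_eq, ← parseval, ← Finset.sum_add_distrib]
  refine Finset.sum_congr rfl fun T _ => ?_
  have hc : (T ∩ X).card + (T ∩ Xᶜ).card = T.card := by
    rw [← Finset.card_union_of_disjoint]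
    · congr 1
      ext x; simp only [Finset.mem_union, Finset.mem_inter, Finset.mem_compl]; tauto
    · rw [Finset.disjoint_left]
      intro x hx hx'
      simp only [Finset.mem_inter, Finset.mem_compl] at hx hx'
      exact hx'.2 hx.2
  by_cases hT : Even T.card
  · rw [hat_odd ha hT]; simp
  · by_cases h1 : Odd (T ∩ X).card
    · have h2 : ¬ Odd (T ∩ Xᶜ).card := by
        intro h2
        exact hT (hc ▸ h1.add_odd h2)
      rw [if_pos h1, if_neg h2]; ring
    · have h2 : Odd (T ∩ Xᶜ).card := by
        rw [Nat.not_odd_iff_even] at h1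
        by_contra h2
        rw [Nat.not_odd_iff_even] at h2
        exact hT (hc ▸ h1.add h2)
      rw [if_neg h1, if_pos h2]; ring

theorem oddW_univ {f : Finset (Fin n) → ℝ} (ha : Antip f) : oddW f univ = av (fun A => f A ^ 2) := by
  have h1 := oddW_add ha (univ : Finset (Fin n))
  have h2 : oddW f (univ : Finset (Fin n))ᶜ = 0 := by
    rw [oddW_eq]
    refine Finset.sum_eq_zero fun T _ => ?_
    simp
  linarith

/-- The covariance inequality with two centres for `f^*`. -/
theorem two_le {f K : Finset (Fin n) → ℝ} (hf : Monotone f) (ha : Antip f) (hK : Monotone K)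
    {X : Finset (Fin n)} {a b : Fin n} (haX : a ∈ X) (hbX : b ∉ X) (H1 : ∀ j ∈ X, j ≠ a → Ex a j K)
    (H2 : ∀ j ∉ X, j ≠ b → Ex b j K) :
    oddW f X * di a K + oddW f Xᶜ * di b K ≤ C4 (sqp f) K := by
  have hdep : ∀ u : Finset (Fin n) → ℝ, Dep univ u := fun u j hj => absurd (Finset.mem_univ j) hj
  have D1 : Data X a univ K := ⟨fun j hj _ hja => H1 j hj hja, fun h => absurd (Finset.mem_univ a) h⟩
  have D2 : Data Xᶜ b univ K := ⟨fun j hj _ hjb => H2 j (Finset.mem_compl.1 hj) hjb, fun h => absurd (Finset.mem_univ b) h⟩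
  have h := two_centre (disjoint_compl_right) haX (Finset.mem_compl.2 hbX) _ univ rfl (sqp f) K (sqp_mono hf) hK
    (hdep _) (hdep _) D1 D2
  refine le_trans ?_ h
  have k1 : oddW f X ≤ dl (sqp f) X := by rw [oddW_eq]; exact dl_sqp ha X
  have k2 : oddW f Xᶜ ≤ dl (sqp f) Xᶜ := by rw [oddW_eq]; exact dl_sqp ha Xᶜ
  have k3 : oddW f X + oddW f Xᶜ ≤ dl (sqp f) (X ∪ Xᶜ) := by
    rw [Finset.union_compl, oddW_add ha, ← oddW_univ ha, oddW_eq]; exact dl_sqp ha univ
  have p1 := di_nonneg hK a
  have p2 := di_nonneg hK b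
  unfold Psi
  rcases le_total (di a K) (di b K) with c | c
  · rw [min_eq_left c, max_eq_left (by linarith : (0:ℝ) ≤ di b K - di a K),
      max_eq_right (by linarith : di a K - di b K ≤ 0)]
    have m1 := mul_le_mul_of_nonneg_left k3 p1
    have m2 := mul_le_mul_of_nonneg_left k2 (by linarith : (0:ℝ) ≤ di b K - di a K)
    linarith
  · rw [min_eq_right c, max_eq_right (by linarith : di b K - di a K ≤ 0),
      max_eq_left (by linarith : (0:ℝ) ≤ di a K - di b K)]
    have m1 := mul_le_mul_of_nonneg_left k3 p2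
    have m2 := mul_le_mul_of_nonneg_left k1 (by linarith : (0:ℝ) ≤ di a K - di b K)
    linarith

/-- The source of the second flow. -/
noncomputable def twoTil (f : Finset (Fin n) → ℝ) (X : Finset (Fin n)) (a b : Fin n) (A : Finset (Fin n)) : ℝ :=
  (if a ∈ A then oddW f X else 0) + (if b ∈ A then oddW f Xᶜ else 0)

/-- **The flow with two centres.** -/
theorem twoFlow (f : Finset (Fin n) → ℝ) (hf : Monotone f) (ha : Antip f) (X : Finset (Fin n)) (a b : Fin n)
    (haX : a ∈ X) (hbX : b ∉ X) : FlowsAlong (Two X a b) (twoTil f X a b) (sqp f) := by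
  refine flowsAlong_of_av (fun _ => Relation.ReflTransGen.refl) (fun _ _ _ h1 h2 => Relation.ReflTransGen.trans h1 h2)
    (fun A => ?_) (fun A => sq_nonneg _) fun K hK => ?_
  · unfold twoTil
    have h1 := oddW_nonneg f X
    have h2 := oddW_nonneg f Xᶜ
    split_ifs <;> linarith
  have hKm : Monotone K := mono_of_insert fun A x => hK _ _ (Relation.ReflTransGen.single (Or.inl ⟨x, rfl⟩))
  have hK1 : ∀ j ∈ X, j ≠ a → Ex a j K := by
    intro j hj hja S haS hjS
    refine hK _ _ (Relation.ReflTransGen.single (Or.inr (Or.inl ⟨j, hj, Finset.mem_insert_self a S, ?_, ?_⟩)))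
    · simp [hja, hjS]
    · rw [Finset.erase_insert haS]
  have hK2 : ∀ j ∉ X, j ≠ b → Ex b j K := by
    intro j hj hjb S hbS hjS
    refine hK _ _ (Relation.ReflTransGen.single (Or.inr (Or.inr ⟨j, hj, Finset.mem_insert_self b S, ?_, ?_⟩)))
    · simp [hjb, hjS]
    · rw [Finset.erase_insert hbS]
  have h1 := two_le hf ha hKm haX hbX hK1 hK2
  have h2 := C4_sqp ha K
  have h3 : av (fun A => K A * twoTil f X a b A) =
      oddW f X * ((av K + kap K a) / 2) + oddW f Xᶜ * ((av K + kap K b) / 2) := by
    rw [← av_mul_ind, ← av_mul_ind, ← av_mul_left, ← av_mul_left, ← av_add]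
    refine av_congr fun A => ?_
    unfold twoTil
    split_ifs <;> ring
  have h4 := oddW_add ha X
  rw [h3]
  rw [di_kap, di_kap] at h1
  rw [← h4] at h2
  nlinarith [h1, h2]

/-- **The theorem on intersecting families with two centres.** -/
theorem twoCentres (F : Finset (Finset (Fin n))) (hF : ∀ A ∈ F, ∀ B ∈ F, (A ∩ B).Nonempty)
    (X : Finset (Fin n)) (a b : Fin n) (haX : a ∈ X) (hbX : b ∉ X) (g : Finset (Fin n) → ℝ) (hg0 : ∀ A, 0 ≤ g A)
    (hg : Antitone g) (h1 : ∀ j ∈ X, ∀ S : Finset (Fin n), a ∉ S → j ∉ S → g (insert j S) ≤ g (insert a S))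
    (h2 : ∀ j ∉ X, ∀ S : Finset (Fin n), b ∉ S → j ∉ S → g (insert j S) ≤ g (insert b S)) :
    ∑ A ∈ F, g A ≤ max (∑ A ∈ univ.filter (fun A : Finset (Fin n) => a ∈ A), g A)
      (∑ A ∈ univ.filter (fun A : Finset (Fin n) => b ∈ A), g A) := by
  have hFi : (F : Set (Finset (Fin n))).Intersecting := by
    intro A hA B hB hd
    have := hF A hA B hB
    rw [Finset.disjoint_iff_inter_eq_empty.1 hd] at this
    simp at this
  have : Nonempty (Fin n) := ⟨a⟩
  obtain ⟨t, hFt, hc, hti⟩ := hFi.exists_card_eq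
  have hc' : 2 * t.card = 2 ^ n := by
    rw [hc, Fintype.card_finset, Fintype.card_fin]
  have ht : ∀ A ∈ t, ∀ B ∈ t, (A ∩ B).Nonempty := by
    intro A hA B hB
    have := hti hA hB
    rw [Finset.disjoint_iff_inter_eq_empty] at this
    exact Finset.nonempty_iff_ne_empty.2 this
  have hup : IsUpperSet (t : Set (Finset (Fin n))) :=
    hti.isUpperSet' (hti.is_max_iff_card_eq.2 hc)
  have hcm := H39.Noise.compl_mem_iff ht hc'
  set f : Finset (Fin n) → ℝ := fun A => if A ∈ t then 1 else -1 with hf
  have hfm : Monotone f := by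
    intro A B hAB
    simp only [hf]
    by_cases hA : A ∈ t
    · have hB : B ∈ t := hup hAB hA
      simp [hA, hB]
    · simp only [hA, if_false]
      split_ifs <;> norm_num
  have hfa : Antip f := by
    intro A
    simp only [hf]
    by_cases hA : A ∈ t
    · have : Aᶜ ∉ t := fun h => (hcm A).1 h hA
      simp [hA, this]
    · have : Aᶜ ∈ t := (hcm A).2 hA
      simp [hA, this]
  have hfl := twoFlow f hfm hfa X a b haX hbX
  have hK : ∀ A B, Two X a b A B → (fun A => - g A) A ≤ (fun A => - g A) B := by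
    intro A B hAB
    induction hAB with
    | refl => exact le_rfl
    | tail _ hs ih =>
      refine ih.trans ?_
      rename_i C D _
      rcases hs with ⟨x, rfl⟩ | ⟨j, hj, haC, hjC, rfl⟩ | ⟨j, hj, hbC, hjC, rfl⟩
      · exact neg_le_neg (hg (Finset.subset_insert x C))
      · have := h1 j hj (C.erase a) (Finset.notMem_erase a C) (fun h => hjC (Finset.mem_of_mem_erase h))
        rw [Finset.insert_erase haC] at this
        exact neg_le_neg this
      · have := h2 j hj (C.erase b) (Finset.notMem_erase b C) (fun h => hjC (Finset.mem_of_mem_erase h))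
        rw [Finset.insert_erase hbC] at this
        exact neg_le_neg this
  have h3 := sum_mul_le_of_flowsAlong hfl hK
  have h4 : ∑ A ∈ F, g A ≤ ∑ A, g A * sqp f A := by
    have e1 : ∑ A, g A * sqp f A = ∑ A ∈ t, g A := by
      have : ∀ A : Finset (Fin n), g A * sqp f A = if A ∈ t then g A else 0 := by
        intro A
        unfold sqp
        simp only [hf]
        split_ifs <;> norm_num
      simp only [this]
      simp
    rw [e1]
    exact Finset.sum_le_sum_of_subset_of_nonneg hFt fun A _ _ => hg0 A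
  have h5 : ∑ A, g A * twoTil f X a b A = oddW f X * (∑ A ∈ univ.filter (fun A : Finset (Fin n) => a ∈ A), g A) +
      oddW f Xᶜ * (∑ A ∈ univ.filter (fun A : Finset (Fin n) => b ∈ A), g A) := by
    rw [Finset.sum_filter, Finset.sum_filter, Finset.mul_sum, Finset.mul_sum, ← Finset.sum_add_distrib]
    refine Finset.sum_congr rfl fun A _ => ?_
    unfold twoTil
    split_ifs <;> ring
  have h6 : oddW f X + oddW f Xᶜ = 1 := by
    rw [oddW_add hfa]
    have : ∀ A, f A ^ 2 = 1 := by
      intro A
      simp only [hf]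
      split_ifs <;> norm_num
    rw [av_congr this, av_const]
  have h7 := oddW_nonneg f X
  have h8 := oddW_nonneg f Xᶜ
  simp only [neg_mul, Finset.sum_neg_distrib, neg_le_neg_iff] at h3
  rw [h5] at h3
  set s := ∑ A ∈ univ.filter (fun A : Finset (Fin n) => a ∈ A), g A
  set u := ∑ A ∈ univ.filter (fun A : Finset (Fin n) => b ∈ A), g A
  have m1 := mul_le_mul_of_nonneg_left (le_max_left s u) h7
  have m2 := mul_le_mul_of_nonneg_left (le_max_right s u) h8
  have m3 : oddW f X * max s u + oddW f Xᶜ * max s u = max s u := by rw [← add_mul, h6, one_mul]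
  linarith

end Pool.Agent.H2.Centre
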