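import Pool.Agent.H2.Centre.Cor

/-!
# The flow with two centres as an inequality for weights
-/

set_option autoImplicit false
set_option linter.unusedSectionVars false

open Finset

namespace Pool.Agent.H2.Centre

open Pool.Agent.H60.Flow

variable {n : ℕ}

theorem neg_le_of_two {X : Finset (Fin n)} {a b : Fin n} {g : Finset (Fin n) → ℝ}
    (hg : Antitone g) (h1 : ∀ j ∈ X, ∀ S : Finset (Fin n), a ∉ S → j ∉ S → g (insert j S) ≤ g (insert a S))
    (h2 : ∀ j ∉ X, ∀ S : Finset (Fin n), b ∉ S → j ∉ S → g (insert j S) ≤ g (insert b S)) :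
    ∀ A B, Two X a b A B → (fun A => - g A) A ≤ (fun A => - g A) B := by
  intro A B hAB
  induction hAB with
  | refl => exact le_rfl
  | tail _ hs ih =>
    refine ih.trans ?_
    rename_i C D _
    rcases hs with ⟨x, rfl⟩ | ⟨j, hj, haC, hjC, rfl⟩ | ⟨j, hj, hbC, hjC, rfl⟩
    · exact neg_le_neg (hg (Finset.subset_insert x C))
    · have := h1 j hj (C.erase a) (Finset.notMem_erase a C) (fun h => hjC (Finset.mem_of_mem_erase h))
      rw [Finset.insert_erase haC] at this
      exact neg_le_neg this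
    · have := h2 j hj (C.erase b) (Finset.notMem_erase b C) (fun h => hjC (Finset.mem_of_mem_erase h))
      rw [Finset.insert_erase hbC] at this
      exact neg_le_neg this

/-- **The inequality with two centres.** -/
theorem twoDual (f : Finset (Fin n) → ℝ) (hf : Monotone f) (ha : Antip f) (X : Finset (Fin n)) (a b : Fin n)
    (haX : a ∈ X) (hbX : b ∉ X) (g : Finset (Fin n) → ℝ) (hg : Antitone g)
    (h1 : ∀ j ∈ X, ∀ S : Finset (Fin n), a ∉ S → j ∉ S → g (insert j S) ≤ g (insert a S))
    (h2 : ∀ j ∉ X, ∀ S : Finset (Fin n), b ∉ S → j ∉ S → g (insert j S) ≤ g (insert b S)) :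
    oddW f X + oddW f Xᶜ = (∑ A, f A ^ 2) / 2 ^ n ∧
    ∑ A, sqp f A * g A ≤ oddW f X * (∑ A ∈ univ.filter (fun A : Finset (Fin n) => a ∈ A), g A) +
      oddW f Xᶜ * (∑ A ∈ univ.filter (fun A : Finset (Fin n) => b ∈ A), g A) := by
  constructor
  · rw [oddW_add ha]
    unfold av
    rw [Fintype.card_fin]
  · have h3 := sum_mul_le_of_flowsAlong (twoFlow f hf ha X a b haX hbX) (neg_le_of_two hg h1 h2)
    simp only [neg_mul, Finset.sum_neg_distrib, neg_le_neg_iff] at h3
    have h5 : ∑ A, g A * twoTil f X a b A =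
        oddW f X * (∑ A ∈ univ.filter (fun A : Finset (Fin n) => a ∈ A), g A) +
        oddW f Xᶜ * (∑ A ∈ univ.filter (fun A : Finset (Fin n) => b ∈ A), g A) := by
      rw [Finset.sum_filter, Finset.sum_filter, Finset.mul_sum, Finset.mul_sum, ← Finset.sum_add_distrib]
      refine Finset.sum_congr rfl fun A _ => ?_
      unfold twoTil
      split_ifs <;> ring
    rw [h5] at h3
    refine le_trans (le_of_eq ?_) h3
    exact Finset.sum_congr rfl fun A _ => mul_comm _ _

end Pool.Agent.H2.Centre
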