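import Pool.Agent.H2.Centre.Basic

/-!
# The covariance inequality with two centres
-/

set_option autoImplicit false
set_option linter.unusedSectionVars false

open Finset

namespace Pool.Agent.H2.Centre

open Pool.Agent.H60.Flow

variable {ι : Type*} [Fintype ι] [DecidableEq ι]

/-- The layered displacement for two blocks. -/
noncomputable def Psi (w : Finset ι → ℝ) (A B : Finset ι) (s t : ℝ) : ℝ :=
  min s t * dl w (A ∪ B) + max (t - s) 0 * dl w B + max (s - t) 0 * dl w A

theorem Psi_swap (w : Finset ι → ℝ) (A B : Finset ι) (s t : ℝ) : Psi w A B s t = Psi w B A t s := by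
  unfold Psi
  rw [min_comm, Finset.union_comm]
  ring

theorem comb_real {P A B Pp Ap Bp Pm Am Bm D M x y x' y' : ℝ} (hD : 0 ≤ D) (hx : 0 ≤ x) (hy : 0 ≤ y)
    (hx' : 0 ≤ x') (hy' : 0 ≤ y') (hM1 : x + x' ≤ M) (hM2 : y + y' ≤ M)
    (h1 : P ≤ D + Pp) (h2 : P ≤ D + Pm) (h3 : P ≤ D + Ap + Bm) (h4 : P ≤ D + Bp + Am)
    (h5 : A ≤ D + Ap) (h6 : A ≤ D + Am) (h7 : B ≤ D + Bp) (h8 : B ≤ D + Bm) :
    min (x + x') (y + y') * P + max (y + y' - (x + x')) 0 * B + max (x + x' - (y + y')) 0 * A ≤
      D * M + (min x y * Pp + max (y - x) 0 * Bp + max (x - y) 0 * Ap) +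
        (min x' y' * Pm + max (y' - x') 0 * Bm + max (x' - y') 0 * Am) := by
  have hM1' := mul_le_mul_of_nonneg_left hM1 hD
  have hM2' := mul_le_mul_of_nonneg_left hM2 hD
  rcases le_total x y with c1 | c1 <;> rcases le_total x' y' with c2 | c2
  · -- both at B
    have c3 : x + x' ≤ y + y' := by linarith
    rw [min_eq_left c3, min_eq_left c1, min_eq_left c2, max_eq_left (by linarith : (0:ℝ) ≤ y + y' - (x + x')),
      max_eq_right (by linarith : x + x' - (y + y') ≤ 0), max_eq_left (by linarith : (0:ℝ) ≤ y - x),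
      max_eq_right (by linarith : x - y ≤ 0), max_eq_left (by linarith : (0:ℝ) ≤ y' - x'),
      max_eq_right (by linarith : x' - y' ≤ 0)]
    have k1 := mul_le_mul_of_nonneg_left h1 hx
    have k2 := mul_le_mul_of_nonneg_left h2 hx'
    have k3 := mul_le_mul_of_nonneg_left h7 (by linarith : (0:ℝ) ≤ y - x)
    have k4 := mul_le_mul_of_nonneg_left h8 (by linarith : (0:ℝ) ≤ y' - x')
    linarith
  · -- + at B, - at A
    have k1 := mul_le_mul_of_nonneg_left h1 hx
    have k2 := mul_le_mul_of_nonneg_left h2 hy'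
    rw [min_eq_left c1, min_eq_right c2, max_eq_left (by linarith : (0:ℝ) ≤ y - x),
      max_eq_right (by linarith : x - y ≤ 0), max_eq_right (by linarith : y' - x' ≤ 0),
      max_eq_left (by linarith : (0:ℝ) ≤ x' - y')]
    rcases le_total (x + x') (y + y') with c3 | c3
    · rw [min_eq_left c3, max_eq_left (by linarith : (0:ℝ) ≤ y + y' - (x + x')),
        max_eq_right (by linarith : x + x' - (y + y') ≤ 0)]
      have k3 := mul_le_mul_of_nonneg_left h4 (by linarith : (0:ℝ) ≤ x' - y')
      have k4 := mul_le_mul_of_nonneg_left h7 (by linarith : (0:ℝ) ≤ y + y' - (x + x'))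
      linarith
    · rw [min_eq_right c3, max_eq_right (by linarith : y + y' - (x + x') ≤ 0),
        max_eq_left (by linarith : (0:ℝ) ≤ x + x' - (y + y'))]
      have k3 := mul_le_mul_of_nonneg_left h4 (by linarith : (0:ℝ) ≤ y - x)
      have k4 := mul_le_mul_of_nonneg_left h6 (by linarith : (0:ℝ) ≤ x + x' - (y + y'))
      linarith
  · -- + at A, - at B
    have k1 := mul_le_mul_of_nonneg_left h1 hy
    have k2 := mul_le_mul_of_nonneg_left h2 hx'
    rw [min_eq_right c1, min_eq_left c2, max_eq_right (by linarith : y - x ≤ 0),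
      max_eq_left (by linarith : (0:ℝ) ≤ x - y), max_eq_left (by linarith : (0:ℝ) ≤ y' - x'),
      max_eq_right (by linarith : x' - y' ≤ 0)]
    rcases le_total (x + x') (y + y') with c3 | c3
    · rw [min_eq_left c3, max_eq_left (by linarith : (0:ℝ) ≤ y + y' - (x + x')),
        max_eq_right (by linarith : x + x' - (y + y') ≤ 0)]
      have k3 := mul_le_mul_of_nonneg_left h3 (by linarith : (0:ℝ) ≤ x - y)
      have k4 := mul_le_mul_of_nonneg_left h8 (by linarith : (0:ℝ) ≤ y + y' - (x + x'))
      linarith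
    · rw [min_eq_right c3, max_eq_right (by linarith : y + y' - (x + x') ≤ 0),
        max_eq_left (by linarith : (0:ℝ) ≤ x + x' - (y + y'))]
      have k3 := mul_le_mul_of_nonneg_left h3 (by linarith : (0:ℝ) ≤ y' - x')
      have k4 := mul_le_mul_of_nonneg_left h5 (by linarith : (0:ℝ) ≤ x + x' - (y + y'))
      linarith
  · have c3 : y + y' ≤ x + x' := by linarith
    rw [min_eq_right c3, min_eq_right c1, min_eq_right c2, max_eq_right (by linarith : y + y' - (x + x') ≤ 0),
      max_eq_left (by linarith : (0:ℝ) ≤ x + x' - (y + y')), max_eq_right (by linarith : y - x ≤ 0),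
      max_eq_left (by linarith : (0:ℝ) ≤ x - y), max_eq_right (by linarith : y' - x' ≤ 0),
      max_eq_left (by linarith : (0:ℝ) ≤ x' - y')]
    have k1 := mul_le_mul_of_nonneg_left h1 hy
    have k2 := mul_le_mul_of_nonneg_left h2 hy'
    have k3 := mul_le_mul_of_nonneg_left h5 (by linarith : (0:ℝ) ≤ x - y)
    have k4 := mul_le_mul_of_nonneg_left h6 (by linarith : (0:ℝ) ≤ x' - y')
    linarith

theorem Psi_comb {w : Finset ι → ℝ} (hw : Monotone w) {A B : Finset ι} (hAB : Disjoint A B) (i : ι)
    {M x y x' y' : ℝ} (hx : 0 ≤ x) (hy : 0 ≤ y) (hx' : 0 ≤ x') (hy' : 0 ≤ y') (hM1 : x + x' ≤ M)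
    (hM2 : y + y' ≤ M) :
    Psi w A B (x + x') (y + y') ≤ di i w * M + Psi (up i w) A B x y + Psi (dn i w) A B x' y' := by
  have e1 : symmDiff A B = A ∪ B := Disjoint.symmDiff_eq_sup hAB
  have e2 : symmDiff B A = A ∪ B := by rw [symmDiff_comm, e1]
  have h3 := step hw i A B
  have h4 := step hw i B A
  rw [e1] at h3
  rw [e2] at h4
  unfold Psi
  exact comb_real (di_nonneg hw i) hx hy hx' hy' hM1 hM2 (step_up hw i _) (step_dn hw i _) h3 h4
    (step_up hw i _) (step_dn hw i _) (step_up hw i _) (step_dn hw i _)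

/-- The data of the induction. -/
structure Data (A : Finset ι) (a : ι) (U : Finset ι) (h : Finset ι → ℝ) : Prop where
  ex : ∀ j ∈ A, j ∈ U → j ≠ a → Ex a j h
  na : a ∉ U → ∀ j ∈ A, j ∉ U

theorem Ex.up {a j i : ι} {h : Finset ι → ℝ} (H : Ex a j h) (ha : a ≠ i) (hj : j ≠ i) : Ex a j (up i h) := by
  intro S haS hjS
  unfold Centre.up
  rw [Finset.insert_comm i a, Finset.insert_comm i j]
  exact H _ (by simp [ha, haS]) (by simp [hj, hjS])

theorem Ex.dn {a j i : ι} {h : Finset ι → ℝ} (H : Ex a j h) (ha : a ≠ i) (hj : j ≠ i) : Ex a j (dn i h) := by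
  intro S haS hjS
  unfold Centre.dn
  rw [Finset.erase_insert_of_ne ha, Finset.erase_insert_of_ne hj]
  exact H _ (by simp [haS]) (by simp [hjS])

theorem Data.up {A : Finset ι} {a : ι} {U : Finset ι} {h : Finset ι → ℝ} (H : Data A a U h) {i : ι}
    (hi : i ≠ a) : Data A a (U.erase i) (up i h) where
  ex := fun j hjA hjU hja => (H.ex j hjA (Finset.mem_of_mem_erase hjU) hja).up hi.symm (Finset.ne_of_mem_erase hjU)
  na := fun haU j hjA hjU =>
    H.na (fun h => haU (Finset.mem_erase.2 ⟨hi.symm, h⟩)) j hjA (Finset.mem_of_mem_erase hjU)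

theorem Data.dn {A : Finset ι} {a : ι} {U : Finset ι} {h : Finset ι → ℝ} (H : Data A a U h) {i : ι}
    (hi : i ≠ a) : Data A a (U.erase i) (dn i h) where
  ex := fun j hjA hjU hja => (H.ex j hjA (Finset.mem_of_mem_erase hjU) hja).dn hi.symm (Finset.ne_of_mem_erase hjU)
  na := fun haU j hjA hjU =>
    H.na (fun h => haU (Finset.mem_erase.2 ⟨hi.symm, h⟩)) j hjA (Finset.mem_of_mem_erase hjU)

/-- After the centre `a` has become the only element of its block. -/
theorem Data.single {A : Finset ι} {a : ι} {U : Finset ι} (hA : ∀ j ∈ A, j ∈ U → j = a) (h : Finset ι → ℝ) :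
    Data A a (U.erase a) h where
  ex := fun j hjA hjU hja => absurd (hA j hjA (Finset.mem_of_mem_erase hjU)) hja
  na := fun _ j hjA hjU => Finset.ne_of_mem_erase hjU (hA j hjA (Finset.mem_of_mem_erase hjU))

/-- The generic step of the induction. -/
theorem generic {A B : Finset ι} {a b : ι} (hAB : Disjoint A B) {w h : Finset ι → ℝ}
    (hw : Monotone w) (hh : Monotone h) {i : ι} (ha : i ≠ a) (hb : i ≠ b)
    (hma : di a h ≤ di i h) (hmb : di b h ≤ di i h)
    (IHu : Psi (up i w) A B (di a (up i h)) (di b (up i h)) ≤ C4 (up i w) (up i h))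
    (IHd : Psi (dn i w) A B (di a (dn i h)) (di b (dn i h)) ≤ C4 (dn i w) (dn i h)) :
    Psi w A B (di a h) (di b h) ≤ C4 w h := by
  have e1 := di_avg ha h
  have e2 := di_avg hb h
  have p1 := di_nonneg (up_mono hh i) a
  have p2 := di_nonneg (up_mono hh i) b
  have p3 := di_nonneg (dn_mono hh i) a
  have p4 := di_nonneg (dn_mono hh i) b
  have hc := Psi_comb hw hAB i (M := di i h) (x := di a (up i h) / 2) (x' := di a (dn i h) / 2)
    (y := di b (up i h) / 2) (y' := di b (dn i h) / 2) (by linarith) (by linarith) (by linarith) (by linarith)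
    (by linarith) (by linarith)
  have f1 : di a (up i h) / 2 + di a (dn i h) / 2 = di a h := by rw [e1]; ring
  have f2 : di b (up i h) / 2 + di b (dn i h) / 2 = di b h := by rw [e2]; ring
  have hh2 : ∀ (u : Finset ι → ℝ) (s t : ℝ), Psi u A B (s / 2) (t / 2) = Psi u A B s t / 2 := by
    intro u s t
    unfold Psi
    have g1 : min (s / 2) (t / 2) = min s t / 2 := (min_div_div_right (by norm_num : (0:ℝ) ≤ 2) s t)
    have g2 : ∀ s t : ℝ, max (s / 2 - t / 2) 0 = max (s - t) 0 / 2 := by
      intro s t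
      rw [← sub_div]
      have := max_div_div_right (by norm_num : (0:ℝ) ≤ 2) (s - t) 0
      rwa [zero_div] at this
    rw [g1, g2, g2]
    ring
  rw [f1, f2, hh2, hh2] at hc
  rw [C4_pm i w h]
  linarith

/-- The step at a centre. -/
theorem central {A B : Finset ι} {a b : ι} {U : Finset ι} (hAB : Disjoint A B) (haA : a ∈ A) (hbB : b ∈ B)
    {w h : Finset ι → ℝ} (hw : Monotone w) (hh : Monotone h) (dw : Dep U w) (dh : Dep U h)
    (haU : a ∈ U) (hA : ∀ j ∈ A, j ∈ U → j = a) (hmb : di b h ≤ di a h)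
    (IHu : Psi (up a w) A B (di a (up a h)) (di b (up a h)) ≤ C4 (up a w) (up a h))
    (IHd : Psi (dn a w) A B (di a (dn a h)) (di b (dn a h)) ≤ C4 (dn a w) (dn a h)) :
    Psi w A B (di a h) (di b h) ≤ C4 w h := by
  have hab : a ≠ b := by
    rintro rfl
    exact (Finset.disjoint_left.1 hAB haA) hbB
  have e2 := di_avg hab h
  have z1 : di a (up a h) = 0 := di_of_notMem (dep_up dh a) (Finset.notMem_erase a U)
  have z2 : di a (dn a h) = 0 := di_of_notMem (dep_dn dh a) (Finset.notMem_erase a U)
  have p2 := di_nonneg (up_mono hh a) b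
  have p4 := di_nonneg (dn_mono hh a) b
  have pa := di_nonneg hw a
  rw [z1] at IHu
  rw [z2] at IHd
  have hPsi0 : ∀ (u : Finset ι → ℝ) (t : ℝ), 0 ≤ t → Psi u A B 0 t = t * dl u B := by
    intro u t ht
    unfold Psi
    rw [min_eq_left ht, sub_zero, max_eq_left ht, zero_sub, max_eq_right (by linarith)]
    ring
  rw [hPsi0 _ _ p2] at IHu
  rw [hPsi0 _ _ p4] at IHd
  have hAU : A ∩ U = {a} := by
    ext x
    simp only [Finset.mem_inter, Finset.mem_singleton]
    constructor
    · exact fun hx => hA x hx.1 hx.2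
    · rintro rfl; exact ⟨haA, haU⟩
  have hset : (A ∪ B) ∩ (U.erase a) = B ∩ (U.erase a) := by
    ext x
    simp only [Finset.mem_inter, Finset.mem_union, Finset.mem_erase]
    constructor
    · rintro ⟨h1 | h1, h2, h3⟩
      · exact absurd (hA x h1 h3) h2
      · exact ⟨h1, h2, h3⟩
    · rintro ⟨h1, h2, h3⟩
      exact ⟨Or.inr h1, h2, h3⟩
  have k1 : dl w (A ∪ B) ≤ di a w + dl (up a w) B := by
    rw [← dl_congr (dep_up dw a) hset]
    exact step_up hw a _
  have k2 : dl w (A ∪ B) ≤ di a w + dl (dn a w) B := by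
    rw [← dl_congr (dep_dn dw a) hset]
    exact step_dn hw a _
  have k3 : dl w A = di a w := dl_eq_di hw dw haU hAU
  unfold Psi
  rw [min_eq_right hmb, max_eq_right (by linarith : di b h - di a h ≤ 0),
    max_eq_left (by linarith : (0:ℝ) ≤ di a h - di b h), k3, C4_pm a w h]
  have m1 := mul_le_mul_of_nonneg_left k1 p2
  have m2 := mul_le_mul_of_nonneg_left k2 p4
  have m3 : di b h * dl w (A ∪ B) = (di b (up a h) * dl w (A ∪ B) + di b (dn a h) * dl w (A ∪ B)) / 2 := by
    rw [e2]; ring
  have m4 : di b h * di a w = (di b (up a h) * di a w + di b (dn a h) * di a w) / 2 := by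
    rw [e2]; ring
  nlinarith [m1, m2, m3, m4, IHu, IHd]

/-- **The covariance inequality with two centres.** -/
theorem two_centre {A B : Finset ι} {a b : ι} (hAB : Disjoint A B) (haA : a ∈ A) (hbB : b ∈ B) :
    ∀ (k : ℕ) (U : Finset ι), U.card = k → ∀ w h : Finset ι → ℝ, Monotone w → Monotone h → Dep U w → Dep U h →
      Data A a U h → Data B b U h → Psi w A B (di a h) (di b h) ≤ C4 w h := by
  intro k
  induction k with
  | zero =>
    intro U hU w h hw hh dw dh _ _
    have hU0 : U = ∅ := Finset.card_eq_zero.1 hU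
    subst hU0
    rw [C4_empty dw, di_of_notMem dh (Finset.notMem_empty a), di_of_notMem dh (Finset.notMem_empty b)]
    unfold Psi
    simp
  | succ k ih =>
    intro U hU w h hw hh dw dh DA DB
    have hne : U.Nonempty := by
      rw [← Finset.card_pos, hU]; omega
    obtain ⟨i, hiU, hmax⟩ := Finset.exists_max_image U (fun i => di i h) hne
    have hcard : ∀ i ∈ U, (U.erase i).card = k := by
      intro i hi
      rw [Finset.card_erase_of_mem hi, hU]; rfl
    have hmax' : ∀ i ∈ U, (∀ j ∈ U, di j h ≤ di i h) → ∀ j, di j h ≤ di i h := by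
      intro i _ hm j
      by_cases hj : j ∈ U
      · exact hm j hj
      · rw [di_of_notMem dh hj]
        exact di_nonneg hh i
    have hab : a ≠ b := by
      rintro rfl
      exact (Finset.disjoint_left.1 hAB haA) hbB
    by_cases hgen : ∃ i ∈ U, i ≠ a ∧ i ≠ b ∧ ∀ j ∈ U, di j h ≤ di i h
    · obtain ⟨i, hiU, hia, hib, hm⟩ := hgen
      have hm' := hmax' i hiU hm
      refine generic hAB hw hh hia hib (hm' a) (hm' b) ?_ ?_
      · exact ih _ (hcard i hiU) _ _ (up_mono hw i) (up_mono hh i) (dep_up dw i) (dep_up dh i) (DA.up hia) (DB.up hib)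
      · exact ih _ (hcard i hiU) _ _ (dn_mono hw i) (dn_mono hh i) (dep_dn dw i) (dep_dn dh i) (DA.dn hia) (DB.dn hib)
    · push Not at hgen
      have hm' := hmax' i hiU hmax
      -- the maximum is attained at a centre only
      have honly : ∀ j ∈ U, (∀ l ∈ U, di l h ≤ di j h) → j = a ∨ j = b := by
        intro j hj hl
        by_contra hc
        push Not at hc
        obtain ⟨l, hl1, hl2⟩ := hgen j hj hc.1 hc.2
        exact absurd (hl l hl1) (not_le.2 hl2)
      rcases honly i hiU hmax with hia | hib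
      · subst hia
        have hA : ∀ j ∈ A, j ∈ U → j = i := by
          intro j hjA hjU
          by_contra hji
          have h1 := (DA.ex j hjA hjU hji).di_le (Ne.symm hji)
          rcases honly j hjU (fun l hl => (hmax l hl).trans h1) with h2 | h2
          · exact hji h2
          · subst h2
            exact (Finset.disjoint_left.1 hAB hjA) hbB
        refine central hAB haA hbB hw hh dw dh hiU hA (hm' b) ?_ ?_
        · exact ih _ (hcard i hiU) _ _ (up_mono hw i) (up_mono hh i) (dep_up dw i) (dep_up dh i)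
            (Data.single hA _) (DB.up hab)
        · exact ih _ (hcard i hiU) _ _ (dn_mono hw i) (dn_mono hh i) (dep_dn dw i) (dep_dn dh i)
            (Data.single hA _) (DB.dn hab)
      · subst hib
        have hB : ∀ j ∈ B, j ∈ U → j = i := by
          intro j hjB hjU
          by_contra hji
          have h1 := (DB.ex j hjB hjU hji).di_le (Ne.symm hji)
          rcases honly j hjU (fun l hl => (hmax l hl).trans h1) with h2 | h2
          · subst h2
            exact (Finset.disjoint_left.1 hAB haA) hjB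
          · exact hji h2
        rw [Psi_swap]
        refine central hAB.symm hbB haA hw hh dw dh hiU hB (hm' a) ?_ ?_
        · rw [← Psi_swap]
          exact ih _ (hcard i hiU) _ _ (up_mono hw i) (up_mono hh i) (dep_up dw i) (dep_up dh i)
            (DA.up hab.symm) (Data.single hB _)
        · rw [← Psi_swap]
          exact ih _ (hcard i hiU) _ _ (dn_mono hw i) (dn_mono hh i) (dep_dn dw i) (dep_dn dh i)
            (DA.dn hab.symm) (Data.single hB _)

end Pool.Agent.H2.Centre
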